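import Mathlib
import Pool.Agent.Helper96.MC.CSt
import Pool.Agent.Helper35.MC.Ob

/-!
MP_4042d8_co, section C, row C7 (paper text: ando_sec_C.txt of helper96).
-/

set_option autoImplicit false
set_option linter.unusedSectionVars false
set_option linter.unusedSimpArgs false
set_option linter.unusedVariables false

namespace Pool.Agent.Helper53.MC

open Pool.Agent.Helper27.MC
open Pool.Agent.Helper51.MC Pool.Agent.Helper88.MC Pool.Agent.Helper64.MC
open Pool.Agent.Helper91.MC Pool.Agent.Helper42.MC Pool.Agent.Helper96.MC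
open Pool.Agent.Helper35.MC (out_le)

section

variable {V : Type} [Fintype V] [DecidableEq V] {G : SimpleGraph V} [DecidableRel G.Adj]
  {c : V → Bool}

/-- free vertices: no neighbour of type `Q` -/
theorem mem_Fr' {f : V} : f ∈ Fr G c ↔ tS G c f ∧ ∀ w, G.Adj f w → ¬ tQ G c w := by
  unfold Fr nQ
  simp only [Finset.mem_filter, Finset.mem_univ, true_and, Finset.card_eq_zero,
    Finset.filter_eq_empty_iff, not_and]
  exact and_congr Iff.rfl ⟨fun h w hw => h trivial hw, fun h w _ hw => h w hw⟩

/-- a neighbour of a vertex of type `A` is false -/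
theorem tA_nb {a x : V} (h : tA G c a) (hx : G.Adj a x) : c x = false := by
  cases e : c x
  · rfl
  · exact absurd (show Rm G c a x from ⟨hx, by rw [e, h.1]⟩) (nomate h.2 x)

/-- The set `{u, b, k}`: `p`, `b`, `g` of type `A`, `u - p`, `u - b`, `b - k`, `k - g`, and the two
neighbours `k`, `k'` of `b` are mates. -/
theorem no_ubk (hG : G.IsRegularOfDegree 3) {j : ℕ} (hj : 1 ≤ j) (hO : Opt G c j)
    {p u u' b k k' g : V} (hp : tA G c p) (nu : N3 G u p u' b) (cu : c u = false)
    (cu' : c u' = false) (hb : tA G c b) (nb : N3 G b u k k') (rk : Rm G c k k')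
    (nk : N3 G k b k' g) (hg : tA G c g) (hgp : g ≠ p) : False := by
  have hm := hO.mu1
  have ck : c k = false := tA_nb hb ((nb.nb k).2 (by simp))
  have ck' : c k' = false := tA_nb hb ((nb.nb k').2 (by simp))
  obtain ⟨nu, hpu', hpb, hu'b⟩ := nu
  obtain ⟨nb, huk, huk', hkk'⟩ := nb
  obtain ⟨nk, hbk', hbg, hk'g⟩ := nk
  obtain ⟨cp, mp⟩ := hp
  obtain ⟨cb, mb⟩ := hb
  obtain ⟨cg, mg⟩ := hg
  have hnp : ∀ x, ¬ Rm G c p x := nomate mp
  have hnb : ∀ x, ¬ Rm G c b x := nomate mb
  have hng : ∀ x, ¬ Rm G c g x := nomate mg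
  have hR : ∀ x y, Rm G c x y ↔ (G.Adj x y ∧ c y = c x) := fun _ _ => Iff.rfl
  have hsym : ∀ x y, G.Adj x y ↔ G.Adj y x := fun x y => G.adj_comm x y
  have hirr : ∀ x, ¬ G.Adj x x := fun x => G.loopless.irrefl x
  have ru : Rm G c u u' := (hR u u').2 ⟨(nu u').2 (by simp), by rw [cu, cu']⟩
  have nuk : ¬ Rm G c u k := by
    intro h
    exact huk' (rm_uniq (hm k) h.symm rk)
  have hk'u' : k' ≠ u' := by
    rintro rfl
    exact huk (rm_uniq (hm _) ru.symm rk.symm)
  have hku' : k ≠ u' := by
    rintro rfl
    exact nuk ru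
  have hub : u ≠ b := ne_col cu cb
  have hbk : b ≠ k := (ne_col ck cb).symm
  have uk : ∀ y, Rm G c k y → y = k' := fun y h => rm_uniq (hm k) h rk
  have uk' : ∀ y, Rm G c k' y → y = k := fun y h => rm_uniq (hm k') h rk.symm
  have key : ∀ v, mu G (flp c ({u, b, k} : Finset V)) v ≤ 1 := by
    intro v
    by_cases v1 : v = u
    · subst v1
      refine mu_le_one (z := p) ?_
      intro y
      rw [rm_in (by simp), hR]
      simp only [Finset.mem_insert, Finset.mem_singleton]
      grind
    by_cases v2 : v = b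
    · subst v2
      refine mu_le_one (z := k') ?_
      intro y
      rw [rm_in (by simp), hR]
      simp only [Finset.mem_insert, Finset.mem_singleton]
      grind
    by_cases v3 : v = k
    · subst v3
      refine mu_le_one (z := g) ?_
      intro y
      rw [rm_in (by simp), hR]
      simp only [Finset.mem_insert, Finset.mem_singleton]
      grind
    have vX : v ∉ ({u, b, k} : Finset V) := by
      simp only [Finset.mem_insert, Finset.mem_singleton]; grind
    by_cases v4 : v = p
    · subst v4
      refine mu_le_one (z := u) ?_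
      intro y
      rw [rm_out vX]
      simp only [Finset.mem_insert, Finset.mem_singleton]
      grind
    by_cases v5 : v = k'
    · subst v5
      refine mu_le_one (z := b) ?_
      intro y
      rw [rm_out vX]
      simp only [Finset.mem_insert, Finset.mem_singleton]
      grind
    by_cases v6 : v = g
    · subst v6
      refine mu_le_one (z := k) ?_
      intro y
      rw [rm_out vX]
      simp only [Finset.mem_insert, Finset.mem_singleton]
      grind
    refine out_le hm vX ?_
    simp only [Finset.mem_insert, Finset.mem_singleton]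
    intro y hy hvy
    have hyv := (hsym v y).1 hvy
    rcases hy with rfl | rfl | rfl
    · rcases (nu v).1 hyv with h | h | h
      · exact absurd h v4
      · rw [h, cu, cu']
      · exact absurd h v2
    · rcases (nb v).1 hyv with h | h | h
      · exact absurd h v1
      · exact absurd h v3
      · exact absurd h v5
    · rcases (nk v).1 hyv with h | h | h
      · exact absurd h v2
      · exact absurd h v5
      · exact absurd h v6
  have nd : ([u, b, k] : List V).Nodup := by
    simp [hub, hbk, huk]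
  refine Pcrit hG hO [u, b, k] nd 1 (by simp [dl_cons, dl_nil, cu, cb, ck]) one_pos
    (by exact_mod_cast hj) ?_ (by
      have : ([u, b, k] : List V).toFinset = {u, b, k} := by simp
      rw [this]
      exact key)
  simp only [cl_cons, cl_nil, List.map_cons, List.map_nil, List.sum_cons, List.sum_nil, mb]
  have e1 : sf G c u b = 1 := sf_adj ((nu b).2 (by simp)) (by rw [cu, cb]; decide)
  have e2 : 0 ≤ sf G c u k := sf_nrm nuk
  have e3 : sf G c b k = 1 := sf_adj ((nb k).2 (by simp)) (by rw [ck, cb]; decide)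
  have e4 : mu G c u = 1 := mu_of_rm hm ru
  have e5 : mu G c k = 1 := mu_of_rm hm rk
  rw [e4, e5]
  push_cast
  linarith

/-- a corner is not adjacent to the mate of the apex unless its outer neighbour is that mate -/
theorem corner_ne (hm : ∀ v, mu G c v ≤ 1) {q p x x' n n' u : V} (h : Td G c q p x x' n n')
    (hn : n ≠ p) (hu : G.Adj p u) : x ≠ u := by
  rintro rfl
  rcases (h.nx.nb p).1 hu.symm with e | e | e
  · exact h.rqp.ne e.symm
  · exact ne_col h.cx' h.cp e.symm
  · exact hn e.symm

end

/-- row C7 -/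
theorem st_C7 : ST_M1 → ST_M2 → Pool.Agent.Helper96.MC.ST_C1 → Pool.Agent.Helper96.MC.ST_C3 →
    ST_C7 := by
  intro M1 M2 C1 C3 V _ _ G _ hG c j hj hE q p x x' n n' u b T hap hpu htu hub hbp htb hPm
  have hCK := hE.ck
  have hO := hCK.1
  have hm := hO.mu1
  have hq := T.apx hm
  have hqu : q ≠ u := (ne_col htu.1 T.cq).symm
  obtain ⟨z, np⟩ := n3_of2 hG T.rqp.1.symm hpu hqu
  obtain ⟨u', hu'⟩ := exists_mate htu.2
  have cu' : c u' = false := by rw [hu'.2, htu.1]
  have hpu' : p ≠ u' := (ne_col cu' T.cp).symm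
  obtain ⟨b0, nu⟩ := n3_of2 hG hpu.symm hu'.1 hpu'
  have hb0 : b0 = b := by
    rcases (nu.nb b).1 hub with e | e | e
    · exact absurd e hbp
    · exact absurd e.symm (ne_col cu' htb.1)
    · exact e.symm
  subst hb0
  obtain ⟨hz, M⟩ := M2 V G hG c j hj hO q p u u' z b0 hq T.rqp hap np htu.1 nu cu' htb
  have hO2 := M.opt j hO
  have hCK2 : CK G (flp c {p, u}) j :=
    ⟨hO2, fun c' h' => (M.kp hPm).trans (hCK.2 c' h')⟩
  have hqb : q ≠ b0 := by
    rintro rfl
    exact nomate htb.2 p T.rqp
  have hTa : Ta G (flp c {p, u}) = Ta G c := by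
    classical
    unfold Ta
    have e : (Finset.univ.filter (fun v => Apx G (flp c {p, u}) v)) =
        insert b0 ((Finset.univ.filter (fun v => Apx G c v)).erase q) := by
      ext v
      simp only [Finset.mem_filter, Finset.mem_univ, true_and, Finset.mem_insert,
        Finset.mem_erase, M.apx]
      constructor
      · rintro (⟨h1, h2⟩ | ⟨h1, h2⟩)
        · exact Or.inr ⟨h2, h1⟩
        · exact Or.inl h1
      · rintro (h1 | ⟨h1, h2⟩)
        · exact Or.inr ⟨h1, hPm⟩
        · exact Or.inl ⟨h2, h1⟩
    have hb : b0 ∉ (Finset.univ.filter (fun v => Apx G c v)).erase q := by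
      simp only [Finset.mem_filter, Finset.mem_univ, true_and, Finset.mem_erase, not_and]
      rintro - ⟨s, s', h1, -⟩
      have h2 := h1.2
      have h3 := htb.2
      omega
    have e2 : (Finset.univ.filter (fun v => Apx G (flp c {p, u}) v)).card =
        (Finset.univ.filter (fun v => Apx G c v)).card := by
      rw [e, Finset.card_insert_of_notMem hb]
      exact Finset.card_erase_add_one (by simp [hq])
    convert e2
  have rqp := T.rqp
  have hpz : ∀ w, Rm G c p w → w = q := fun w h => rm_uniq (hm p) h rqp.symm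
  refine ⟨?_, ?_⟩
  · -- no child
    rintro w ⟨p1, y, y', l, l', T1, hlp, hw, hwl⟩
    have e : p1 = p := rm_uniq (hm q) T1.rqp rqp
    subst e
    rcases C1 V G hG c j hj hCK q p1 y y' l l' T1 with ⟨h1, -⟩ | ⟨-, hl'p, hll'⟩
    · exact hlp h1
    have hyu : y ≠ u := corner_ne hm T1 hlp hpu
    have hyu' : y' ≠ u := corner_ne hm T1.swap hl'p hpu
    have hyp : y ≠ p1 := ne_col T1.cx T1.cp
    have hyp' : y' ≠ p1 := ne_col T1.cx' T1.cp
    have hlu : l ≠ u := (ne_col htu.1 T1.cn).symm
    have hwc : c w = true := by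
      obtain ⟨_, _, h1, -⟩ := hw
      exact h1.1
    have hwq : w ≠ q := by
      rintro rfl
      exact hlp (rm_uniq (hm _) hwl rqp)
    have hwp : w ≠ p1 := by
      rintro rfl
      exact hap hw
    have hwu : w ≠ u := (ne_col htu.1 hwc).symm
    refine C3 V G hG (flp c {p1, u}) j hj hCK2 q y y' l w ((M.tA q).2 (Or.inr rfl))
      ((T1.nq.nb y).2 (by simp)) ((T1.nq.nb y').2 (by simp))
      ((M.rm y y').2 (Or.inl ⟨T1.rxx, hyp, hyu, hyp', hyu'⟩)) ((T1.nx.nb l).2 (by simp))
      T1.nx.xz.symm ?_ ((M.apx w).2 (Or.inl ⟨hw, hwq⟩))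
      ((M.rm w l).2 (Or.inl ⟨hwl, hwp, hwu, hlp, hlu⟩))
    rw [M.col l hlp hlu, T1.cn]
  · -- both outer neighbours of type `A`
    rintro ⟨hn, hn'⟩
    have hnpA : ∀ {a : V}, tA G c a → a ≠ p := by
      rintro a ha rfl
      exact nomate ha.2 q rqp.symm
    have hnp := hnpA hn
    have hn'p := hnpA hn'
    have hnn : n ≠ n' := by
      rcases C1 V G hG c j hj hCK q p x x' n n' T with ⟨h1, -⟩ | ⟨-, -, h3⟩
      · exact absurd h1 hnp
      · exact h3
    have hxu : x ≠ u := corner_ne hm T hnp hpu
    have hxu' : x' ≠ u := corner_ne hm T.swap hn'p hpu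
    obtain ⟨k, k', nb, rk⟩ := hPm
    have hcb := htb.1
    -- `b` differs from the outer neighbours
    have hbn : ∀ {y y' l l' : V}, Td G c q p y y' l l' → l ≠ l' → y ≠ u → b0 ≠ l := by
      rintro y y' l l' T1 hll hyu rfl
      have h1 : G.Adj b0 y := ((T1.nx.nb b0).2 (by simp)).symm
      have h2 : G.Adj b0 y' := by
        rcases (nb.nb y).1 h1 with e | e | e
        · exact absurd e hyu
        · subst e
          have e2 : y' = k' := rm_uniq (hm _) T1.rxx rk
          rw [e2]
          exact (nb.nb k').2 (by simp)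
        · subst e
          have e2 : y' = k := rm_uniq (hm _) T1.rxx rk.symm
          rw [e2]
          exact (nb.nb k).2 (by simp)
      rcases (T1.nx'.nb b0).1 h2.symm with e | e | e
      · exact hqb e.symm
      · exact ne_col T1.cx hcb e.symm
      · exact hll e
    have hbn1 := hbn T hnn hxu
    have hbn2 := hbn T.swap hnn.symm hxu'
    have ck : c k = false := tA_nb htb ((nb.nb k).2 (by simp))
    have ck' : c k' = false := tA_nb htb ((nb.nb k').2 (by simp))
    -- the rotation at a corner with outer neighbour different from `g`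
    have key : ∀ {y y' l l' k k' g : V}, Td G c q p y y' l l' → tA G c l → y ≠ u → b0 ≠ l →
        N3 G b0 u k k' → Rm G c k k' → c k = false → c k' = false → N3 G k b0 k' g →
        tA G c g → g ≠ l → False := by
      intro y y' l l' k k' g T1 hl hyu hbl nb rk ck ck' nk hg hgl
      have R := M1 V G hG c hm q p y y' l l' T1 hl
      have hkcor : ∀ {k k' : V}, N3 G b0 u k k' → Rm G c k k' → c k' = false → k ≠ y := by
        rintro k k' nb rk ck' rfl
        rcases (T1.nx.nb b0).1 ((nb.nb _).2 (by simp)).symm with e | e | e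
        · exact hqb e.symm
        · exact ne_col T1.cx' hcb e.symm
        · exact hbl e
      have hky := hkcor nb rk ck'
      have hk'y := hkcor (n3_23 nb) rk.symm ck
      have hkq : k ≠ q := ne_col ck T1.cq
      have hk'q : k' ≠ q := ne_col ck' T1.cq
      have huy : u' ≠ y := by
        rintro rfl
        have e : u = y' := rm_uniq (hm _) hu'.symm T1.rxx
        rcases (T1.nx'.nb p).1 (e ▸ hpu.symm) with e | e | e
        · exact rqp.ne e.symm
        · exact ne_col T1.cx T1.cp e.symm
        · subst e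
          rcases C1 V G hG c j hj hCK q _ _ y' l _ T1 with ⟨h1, -⟩ | ⟨-, h2, -⟩
          · exact hnpA hl h1
          · exact h2 rfl
      have hlp : l ≠ p := hnpA hl
      have hgp : g ≠ p := hnpA hg
      have hgy : g ≠ y := (ne_col T1.cx hg.1).symm
      have hgq : g ≠ q := by
        rintro rfl
        exact nomate hg.2 p rqp
      refine no_ubk hG hj (R.opt j hO) (p := p) (u := u) (u' := u') (b := b0) (k := k) (k' := k')
        (g := g) ((R.tA p).2 (Or.inr rfl)) nu ?_ ?_ ((R.tA b0).2 (Or.inl ⟨htb, hbl⟩)) nb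
        ((R.rm k k').2 (Or.inl ⟨rk, hkq, hky, hk'q, hk'y⟩)) nk
        ((R.tA g).2 (Or.inl ⟨hg, hgl⟩)) hgp
      · rw [R.col u hqu.symm hyu.symm, htu.1]
      · rw [R.col u' (ne_col cu' T1.cq) huy, cu']
    -- `k` and `k'` are not free
    have hk : ∀ {k k' : V}, N3 G b0 u k k' → Rm G c k k' → c k = false → c k' = false →
        k ∉ Fr G c := by
      intro k k' nb rk ck ck' hf
      have hbk' : b0 ≠ k' := (ne_col ck' hcb).symm
      obtain ⟨g, nk⟩ := n3_of2 hG ((nb.nb k).2 (by simp)).symm rk.1 hbk'
      have cg : c g = true := by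
        cases e : c g
        · exact absurd (rm_uniq (hm k) rk ⟨(nk.nb g).2 (by simp), by rw [e, ck]⟩) nk.yz
        · rfl
      have hg : tA G c g := by
        rcases tA_or_tQ hm cg with h | h
        · exact h
        · exact absurd h ((mem_Fr'.1 hf).2 g ((nk.nb g).2 (by simp)))
      by_cases hgn : g = n
      · exact key T.swap hn' hxu' hbn2 nb rk ck ck' nk hg (by rw [hgn]; exact hnn)
      · exact key T hn hxu hbn1 nb rk ck ck' nk hg hgn
    have hk1 := hk nb rk ck ck'
    have hk2 := hk (n3_23 nb) rk.symm ck' ck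
    -- free vertices of the new colouring
    have hQp : tQ G c p := ⟨T.cp, mu_of_rm hm rqp.symm⟩
    have hQq : tQ G c q := ⟨T.cq, mu_of_rm hm rqp⟩
    have hcor : ∀ {y y' l l' : V}, Td G c q p y y' l l' → tA G c l → y ≠ u → b0 ≠ l → y' ≠ u →
        y ∈ Fr G (flp c {p, u}) ∧ y ∉ Fr G c := by
      intro y y' l l' T1 hl hyu hbl hyu'
      have hyq : G.Adj y q := (T1.nx.nb q).2 (by simp)
      have hty : tS G c y := ⟨T1.cx, mu_of_rm hm T1.rxx⟩
      have hyu2 : y ≠ u' := by
        rintro rfl
        exact hyu' (rm_uniq (hm _) T1.rxx hu'.symm)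
      refine ⟨mem_Fr'.2 ⟨(M.tS y).2 (Or.inl ⟨hty, hyu, hyu2⟩), ?_⟩, ?_⟩
      · intro w hw hQ
        have hAq : tA G (flp c {p, u}) q := (M.tA q).2 (Or.inr rfl)
        have hAl : tA G (flp c {p, u}) l := (M.tA l).2 (Or.inl ⟨hl, hbl.symm⟩)
        rcases (T1.nx.nb w).1 hw with e | e | e
        · subst e
          exact tA_not_tQ hAq hQ
        · subst e
          have h1 := hQ.1
          rw [M.col w (ne_col T1.cx' T1.cp) hyu', T1.cx'] at h1
          cases h1
        · subst e
          exact tA_not_tQ hAl hQ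
      · intro hf
        exact (mem_Fr'.1 hf).2 q hyq hQq
    obtain ⟨hx1, hx2⟩ := hcor T hn hxu hbn1 hxu'
    obtain ⟨hx1', hx2'⟩ := hcor T.swap hn' hxu' hbn2 hxu
    have hfr : ∀ f, f ∈ Fr G c → f ≠ u' → f ∈ Fr G (flp c {p, u}) := by
      intro f hf hfu'
      obtain ⟨h1, h2⟩ := mem_Fr'.1 hf
      have hfu : f ≠ u := by
        rintro rfl
        exact h2 p hpu.symm hQp
      refine mem_Fr'.2 ⟨(M.tS f).2 (Or.inl ⟨h1, hfu, hfu'⟩), ?_⟩
      intro w hw hQ
      rcases (M.tQ w).1 hQ with ⟨h3, -, -⟩ | h3 | h3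
      · exact h2 w hw h3
      · subst h3
        rcases (nu.nb f).1 hw.symm with e | e | e
        · exact ne_col h1.1 T.cp e
        · exact hfu' e
        · exact ne_col h1.1 hcb e
      · subst h3
        rcases (nb.nb f).1 hw.symm with e | e | e
        · exact hfu e
        · exact hk1 (e ▸ hf)
        · exact hk2 (e ▸ hf)
    have hxx : x ≠ x' := T.rxx.ne
    have hsub : insert x (insert x' ((Fr G c).erase u')) ⊆ Fr G (flp c {p, u}) := by
      intro f hf
      simp only [Finset.mem_insert, Finset.mem_erase] at hf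
      rcases hf with e | e | ⟨e1, e2⟩
      · rw [e]
        exact hx1
      · rw [e]
        exact hx1'
      · exact hfr f e2 e1
    have hcard := Finset.card_le_card hsub
    rw [Finset.card_insert_of_notMem (by
        simp only [Finset.mem_insert, Finset.mem_erase, not_or, not_and]
        exact ⟨hxx, fun _ => hx2⟩),
      Finset.card_insert_of_notMem (by
        simp only [Finset.mem_erase, not_and]
        exact fun _ => hx2')] at hcard
    have h1 := Finset.pred_card_le_card_erase (s := Fr G c) (a := u')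
    have h2 := hE.fr _ hCK2 hTa
    omega

end Pool.Agent.Helper53.MC
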