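import Mathlib
import Pool.Agent.Helper53.MC.C7

/-!
MP_4042d8_co, section C: the count (row C_CC) in the refined form needed by part II of section D.
-/

set_option autoImplicit false
set_option linter.unusedSectionVars false
set_option linter.unusedSimpArgs false
set_option linter.unusedVariables false

namespace Pool.Agent.Helper53.MC

open Pool.Agent.Helper27.MC
open Pool.Agent.Helper51.MC Pool.Agent.Helper88.MC Pool.Agent.Helper64.MC
open Pool.Agent.Helper91.MC Pool.Agent.Helper42.MC Pool.Agent.Helper96.MC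

/-! ### weights -/

section weights

open Classical in
/-- a double count with weights `2` (relation `R2`) and `1` (relation `R1`) -/
theorem two_count {α : Type} (A T : Finset α) (R1 R2 : α → α → Prop)
    (lo : ∀ q ∈ A, (∃ d ∈ T, R2 q d) ∨ ∃ d d', d ∈ T ∧ d' ∈ T ∧ d ≠ d' ∧ R1 q d ∧ R1 q d')
    (hi2 : ∀ d ∈ T, ∀ q q', R2 q d → (R1 q' d ∨ R2 q' d) → q' = q)
    (hi1 : ∀ d ∈ T, ∃ a b, ∀ q, R1 q d → q = a ∨ q = b) : A.card ≤ T.card := by
  let w : α → α → ℕ := fun q d => if R2 q d then 2 else if R1 q d then 1 else 0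
  have h1 : ∀ q ∈ A, 2 ≤ ∑ d ∈ T, w q d := by
    intro q hq
    rcases lo q hq with ⟨d, hd, h⟩ | ⟨d, d', hd, hd', hne, h, h'⟩
    · have : w q d ≤ ∑ d ∈ T, w q d :=
        Finset.single_le_sum (f := fun d => w q d) (fun _ _ => Nat.zero_le _) hd
      have e : w q d = 2 := by simp [w, h]
      omega
    · have hs : ({d, d'} : Finset α) ⊆ T := by
        intro x hx
        simp only [Finset.mem_insert, Finset.mem_singleton] at hx
        rcases hx with rfl | rfl
        · exact hd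
        · exact hd'
      have h2 : ∑ x ∈ ({d, d'} : Finset α), w q x ≤ ∑ d ∈ T, w q d :=
        Finset.sum_le_sum_of_subset hs
      rw [Finset.sum_pair hne] at h2
      have e1 : 1 ≤ w q d := by
        simp only [w]
        split_ifs <;> omega
      have e2 : 1 ≤ w q d' := by
        simp only [w]
        split_ifs <;> omega
      omega
  have h2 : ∀ d ∈ T, ∑ q ∈ A, w q d ≤ 2 := by
    intro d hd
    by_cases h : ∃ q ∈ A, R2 q d
    · obtain ⟨q, hq, h3⟩ := h
      have e : ∑ q ∈ A, w q d = w q d := by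
        refine Finset.sum_eq_single_of_mem q hq fun q' _ hne => ?_
        have n2 : ¬ R2 q' d := fun h4 => hne (hi2 d hd q q' h3 (Or.inr h4))
        have n1 : ¬ R1 q' d := fun h4 => hne (hi2 d hd q q' h3 (Or.inl h4))
        simp [w, n2, n1]
      rw [e]
      simp [w, h3]
    · push Not at h
      obtain ⟨a, b, hab⟩ := hi1 d hd
      have e : ∑ q ∈ A, w q d = ∑ q ∈ A, if R1 q d then 1 else 0 := by
        refine Finset.sum_congr rfl fun q hq => ?_
        simp [w, h q hq]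
      rw [e, ← Finset.card_filter]
      have : A.filter (fun q => R1 q d) ⊆ {a, b} := by
        intro q hq
        simp only [Finset.mem_filter] at hq
        simp only [Finset.mem_insert, Finset.mem_singleton]
        exact hab q hq.2
      exact (Finset.card_le_card this).trans Finset.card_le_two
  have h3 : 2 * A.card ≤ ∑ q ∈ A, ∑ d ∈ T, w q d := by
    calc 2 * A.card = ∑ _q ∈ A, 2 := by rw [Finset.sum_const, smul_eq_mul, mul_comm]
      _ ≤ _ := Finset.sum_le_sum h1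
  have h4 : ∑ q ∈ A, ∑ d ∈ T, w q d ≤ 2 * T.card := by
    rw [Finset.sum_comm]
    calc _ ≤ ∑ _d ∈ T, 2 := Finset.sum_le_sum h2
      _ = 2 * T.card := by rw [Finset.sum_const, smul_eq_mul, mul_comm]
  omega

end weights

/-! ### definitions -/

section defs

variable {V : Type} [Fintype V] [DecidableEq V] (G : SimpleGraph V) [DecidableRel G.Adj]

/-- accessible -/
def acc (c : V → Bool) (q : V) : Prop := ∃ m, Acc G c m q

/-- vertices of type `D` with a free mate -/
def Bd (c : V → Bool) (v : V) : Prop := v ∈ Dd G c ∧ ∃ s, Rm G c v s ∧ s ∈ Fr G c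

/-- corner -/
def Cr (c : V → Bool) (q x : V) : Prop := ∃ p x' n n', Td G c q p x x' n n'

/-- apexes which need a bad payer -/
structure Zr (c : V → Bool) (q : V) : Prop where
  ap : Apx G c q
  ac : acc G c q
  bd : ∃ p v, Rm G c q p ∧ ¬ Apx G c p ∧ G.Adj p v ∧ Bd G c v
  cor : ∀ p x x' n n', Td G c q p x x' n n' →
    tA G c n ∨ ∃ w, Apx G c w ∧ Rm G c w n ∧ acc G c w

/-- bad vertices which pay for an apex -/
def dom (c : V → Bool) (v : V) : Prop :=
  Bd G c v ∧ ∃ q p, Zr G c q ∧ Rm G c q p ∧ ¬ Apx G c p ∧ G.Adj p v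

/-- weight one -/
def W1 (c : V → Bool) (q d : V) : Prop :=
  (¬ acc G c q ∧ Cr G c q d) ∨ (acc G c q ∧ ∃ p, Rm G c q p ∧ Cr G c p d ∧ ¬ acc G c p) ∨
    (acc G c q ∧ ∃ w, Ch G c q w ∧ Cr G c w d ∧ ¬ acc G c w)

/-- weight two -/
def W2 (c : V → Bool) (q d : V) : Prop :=
  acc G c q ∧ ((Rm G c q d ∧ d ∈ Q0 G c) ∨
    (∃ p x' n n', Td G c q p d x' n n' ∧ ∀ w, Apx G c w → ¬ Rm G c w n) ∨
    ∃ p, Rm G c q p ∧ ¬ Apx G c p ∧ G.Adj p d ∧ tS G c d)

end defs

section

variable {V : Type} [Fintype V] [DecidableEq V] {G : SimpleGraph V} [DecidableRel G.Adj]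
  {c : V → Bool} {j : ℕ}

/-- uniqueness of the data of a Theta -/
theorem td_uniq (hm : ∀ v, mu G c v ≤ 1) {q p x x' n n' p1 y y' l l' : V}
    (h : Td G c q p x x' n n') (h1 : Td G c q p1 y y' l l') :
    p1 = p ∧ ((y = x ∧ y' = x' ∧ l = n ∧ l' = n') ∨ (y = x' ∧ y' = x ∧ l = n' ∧ l' = n)) := by
  have e : p1 = p := rm_uniq (hm q) h1.rqp h.rqp
  subst e
  refine ⟨rfl, ?_⟩
  have hy : y = x ∨ y = x' := by
    rcases (h.nq.nb y).1 ((h1.nq.nb y).2 (by simp)) with e | e | e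
    · exact absurd e (ne_col h1.cx h.cp)
    · exact Or.inl e
    · exact Or.inr e
  have hy' : y' = x ∨ y' = x' := by
    rcases (h.nq.nb y').1 ((h1.nq.nb y').2 (by simp)) with e | e | e
    · exact absurd e (ne_col h1.cx' h.cp)
    · exact Or.inl e
    · exact Or.inr e
  have hyy : y ≠ y' := h1.nq.yz
  have out : ∀ {a b z z' : V}, N3 G a q b z → N3 G a q b z' → z' = z := by
    intro a b z z' h2 h3
    rcases (h2.nb z').1 ((h3.nb z').2 (by simp)) with e | e | e
    · exact absurd e h3.xz.symm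
    · exact absurd e h3.yz.symm
    · exact e
  rcases hy with e | e
  · subst e
    rcases hy' with e' | e'
    · exact absurd e'.symm hyy
    · subst e'
      exact Or.inl ⟨rfl, rfl, out h.nx h1.nx, out h.nx' h1.nx'⟩
  · subst e
    rcases hy' with e' | e'
    · subst e'
      exact Or.inr ⟨rfl, rfl, out h.nx' h1.nx, out h.nx h1.nx'⟩
    · exact absurd e'.symm hyy

theorem Cr.apx (hm : ∀ v, mu G c v ≤ 1) {q x : V} (h : Cr G c q x) : Apx G c q := by
  obtain ⟨p, x', n, n', T⟩ := h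
  exact T.apx hm

theorem Cr.col {q x : V} (h : Cr G c q x) : c x = false := by
  obtain ⟨p, x', n, n', T⟩ := h
  exact T.cx

/-- data of an apex with given mate -/
theorem td_ex (hG : G.IsRegularOfDegree 3) (hm : ∀ v, mu G c v ≤ 1) {q p : V} (h : Apx G c q)
    (hp : Rm G c q p) : ∃ x x' n n', Td G c q p x x' n n' := by
  obtain ⟨s, s', hs⟩ := h
  obtain ⟨p1, n, n', T⟩ := td_of hG hm hs
  have e : p1 = p := rm_uniq (hm q) T.rqp hp
  subst e
  exact ⟨s, s', n, n', T⟩

theorem td_sv {q p x x' n n' : V} (T : Td G c q p x x' n n') : Sv G c x x' q n :=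
  ⟨T.cx, T.cx', T.cq, T.cn, n3_12 T.nx⟩

theorem td_tQ (hm : ∀ v, mu G c v ≤ 1) {q p x x' n n' : V} (T : Td G c q p x x' n n') :
    tQ G c q ∧ tQ G c p :=
  ⟨⟨T.cq, mu_of_rm hm T.rqp⟩, ⟨T.cp, mu_of_rm hm T.rqp.symm⟩⟩

/-- a corner with outer neighbour of type `Q` -/
theorem td_Dd (hm : ∀ v, mu G c v ≤ 1) {q p x x' n n' : V} (T : Td G c q p x x' n n')
    (h : tQ G c n) : x ∈ Dd G c := (sv_Dd hm (td_sv T)).2 ⟨(td_tQ hm T).1, h⟩

/-- corners are not bad -/
theorem td_nBd (hm : ∀ v, mu G c v ≤ 1) {q p x x' n n' : V} (T : Td G c q p x x' n n') :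
    ¬ Bd G c x := by
  rintro ⟨-, s, h1, h2⟩
  have e : s = x' := rm_uniq (hm x) h1 T.rxx
  subst e
  exact (mem_Fr'.1 h2).2 q ((T.nx'.nb q).2 (by simp)) (td_tQ hm T).1

theorem acc_ch {q w : V} (h : Ch G c q w) (hw : acc G c w) : acc G c q := by
  obtain ⟨m, f, h0, h1, h2⟩ := hw
  refine ⟨m + 1, fun i => if i = 0 then q else f (i - 1), by simp, ?_, ?_⟩
  · intro i hi
    by_cases e : i = 0
    · subst e
      simp only [if_true, Nat.zero_add, Nat.one_ne_zero, if_false, Nat.sub_self, h0]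
      exact h
    · have h3 := h1 (i - 1) (by omega)
      have e2 : i - 1 + 1 = i := by omega
      rw [e2] at h3
      simp only [e, if_false, Nat.succ_ne_zero, Nat.add_sub_cancel]
      exact h3
  · simpa using h2

theorem Ch.apx (hm : ∀ v, mu G c v ≤ 1) {q w : V} (h : Ch G c q w) : Apx G c q ∧ Apx G c w := by
  obtain ⟨p, x, x', n, n', T, h1, h2, h3⟩ := h
  exact ⟨T.apx hm, h2⟩

theorem acc_apx (hm : ∀ v, mu G c v ≤ 1) {q : V} (h : acc G c q) : Apx G c q := by
  obtain ⟨m, f, h0, h1, h2⟩ := h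
  by_cases e : m = 0
  · subst e
    obtain ⟨p, x, x', n, n', T, hn⟩ := h2
    rw [← h0]
    exact T.apx hm
  · have := h1 0 (by omega)
    rw [h0] at this
    exact (Ch.apx hm this).1

theorem acc_A {q p x x' n n' : V} (T : Td G c q p x x' n n') (h : tA G c n) : acc G c q :=
  ⟨0, fun _ => q, rfl, fun i hi => absurd hi (Nat.not_lt_zero i), p, x, x', n, n', T, h⟩

theorem nacc_Q (hm : ∀ v, mu G c v ≤ 1) {q p x x' n n' : V} (T : Td G c q p x x' n n')
    (h : ¬ acc G c q) : tQ G c n := by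
  rcases tA_or_tQ hm T.cn with h1 | h1
  · exact absurd (acc_A T h1) h
  · exact h1

/-- an accessible apex is not in a `K4` -/
theorem acc_np (hC : Pool.Agent.Helper96.MC.ST_C1) (hG : G.IsRegularOfDegree 3) (hj : 1 ≤ j)
    (hK : CK G c j) {q p x x' n n' : V} (T : Td G c q p x x' n n') (h : acc G c q) : n ≠ p := by
  have hm := hK.1.mu1
  rintro rfl
  have hn' : n' = n := by
    rcases hC V G hG c j hj hK q n x x' n n' T with h1 | h1
    · exact h1.2
    · exact absurd rfl h1.1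
  subst hn'
  obtain ⟨m, f, h0, h1, h2⟩ := h
  by_cases e : m = 0
  · subst e
    obtain ⟨p1, y, y', l, l', T1, hl⟩ := h2
    rw [h0] at T1
    obtain ⟨e1, e2⟩ := td_uniq hm T T1
    have hl' : l = n' := by
      rcases e2 with e2 | e2
      · exact e2.2.2.1
      · exact e2.2.2.1
    rw [hl'] at hl
    exact tA_not_tQ hl (td_tQ hm T).2
  · have h3 := h1 0 (by omega)
    rw [h0] at h3
    obtain ⟨p1, y, y', l, l', T1, hl, -⟩ := h3
    obtain ⟨e1, e2⟩ := td_uniq hm T T1
    apply hl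
    rw [e1]
    rcases e2 with e2 | e2
    · exact e2.2.2.1
    · exact e2.2.2.1

/-- the outer neighbour of a corner is no apex, unless it is the mate of the apex -/
theorem n_napx (hC : Pool.Agent.Helper96.MC.ST_C1) (hG : G.IsRegularOfDegree 3) (hj : 1 ≤ j)
    (hK : CK G c j) {q p x x' n n' : V} (T : Td G c q p x x' n n') (h : n ≠ p) :
    ¬ Apx G c n := by
  have hm := hK.1.mu1
  rintro ⟨s, s', hs⟩
  obtain ⟨p2, l, l', T2⟩ := td_of hG hm hs
  have hnx : G.Adj n x := ((T.nx.nb n).2 (by simp)).symm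
  have key : G.Adj n x' := by
    rcases (T2.nq.nb x).1 hnx with e | e | e
    · exact absurd e (ne_col T.cx T2.cp)
    · subst e
      have e2 : x' = s' := rm_uniq (hm _) T.rxx T2.rxx
      rw [e2]
      exact (T2.nq.nb s').2 (by simp)
    · subst e
      have e2 : x' = s := rm_uniq (hm _) T.rxx T2.rxx.symm
      rw [e2]
      exact (T2.nq.nb s).2 (by simp)
  rcases (T.nx'.nb n).1 key.symm with e | e | e
  · exact T.nx.xz e.symm
  · exact ne_col T.cx T.cn e.symm
  · rcases hC V G hG c j hj hK q p x x' n n' T with h1 | h1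
    · exact h h1.1
    · exact h1.2.2 e

/-- two apexes with a common corner -/
theorem cr_two (hC : Pool.Agent.Helper96.MC.ST_C1) (hG : G.IsRegularOfDegree 3) (hj : 1 ≤ j)
    (hK : CK G c j) {q p x x' n n' a : V} (T : Td G c q p x x' n n') (h : Cr G c a x) :
    a = q ∨ (a = n ∧ n = p) := by
  have hm := hK.1.mu1
  have ha := Cr.apx hm h
  obtain ⟨p2, x2, l, l', T2⟩ := h
  have hxa : G.Adj x a := (T2.nx.nb a).2 (by simp)
  rcases (T.nx.nb a).1 hxa with e | e | e
  · exact Or.inl e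
  · exact absurd e.symm (ne_col T.cx' T2.cq)
  · refine Or.inr ⟨e, ?_⟩
    by_contra hn
    exact n_napx hC hG hj hK T hn (e ▸ ha)

/-- the mate of the apex is adjacent to a corner: it is an apex -/
theorem np_apx (hC : Pool.Agent.Helper96.MC.ST_C1) (hG : G.IsRegularOfDegree 3) (hj : 1 ≤ j)
    (hK : CK G c j) {q p x x' n n' : V} (T : Td G c q p x x' n n') (h : n = p) :
    Apx G c p := by
  have hm := hK.1.mu1
  have h2 : n' = p := by
    rcases hC V G hG c j hj hK q p x x' n n' T with h1 | h1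
    · exact h1.2
    · exact absurd h h1.1
  exact ⟨x, x', (td_tQ hm T).2, h ▸ ((T.nx.nb n).2 (by simp)).symm,
    h2 ▸ ((T.nx'.nb n').2 (by simp)).symm, T.rxx, T.cx⟩

/-- the mate of a child is no apex -/
theorem ch_mate (hC : Pool.Agent.Helper96.MC.ST_C1) (hG : G.IsRegularOfDegree 3) (hj : 1 ≤ j)
    (hK : CK G c j) {q w m : V} (h : Ch G c q w) (hr : Rm G c w m) : ¬ Apx G c m := by
  have hm := hK.1.mu1
  obtain ⟨p, x, x', n, n', T, h1, h2, h3⟩ := h
  have e : m = n := rm_uniq (hm w) hr h3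
  rw [e]
  exact n_napx hC hG hj hK T h1

/-- the parent is unique -/
theorem par_uniq (hC : Pool.Agent.Helper96.MC.ST_C1) (hG : G.IsRegularOfDegree 3) (hj : 1 ≤ j)
    (hK : CK G c j) {q q' w : V} (h : Ch G c q w) (h' : Ch G c q' w) : q = q' := by
  have hm := hK.1.mu1
  obtain ⟨p, x, x', n, n', T, h1, h2, h3⟩ := h
  obtain ⟨p2, y, y', l, l', T2, k1, k2, k3⟩ := h'
  have e : l = n := rm_uniq (hm w) k3 h3
  subst e
  have anx : G.Adj l x := ((T.nx.nb l).2 (by simp)).symm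
  have any' : G.Adj l y := ((T2.nx.nb l).2 (by simp)).symm
  have hQ : tQ G c l := ⟨T.cn, mu_of_rm hm h3.symm⟩
  have hxy : x = y := by
    by_contra hne
    have r := F1 hG hj hK.1 hQ ⟨T.cx, mu_of_rm hm T.rxx⟩ ⟨T2.cx, mu_of_rm hm T2.rxx⟩ anx any' hne
    exact n_napx hC hG hj hK T h1 ⟨x, y, hQ, anx, any', r, T.cx⟩
  subst hxy
  rcases cr_two hC hG hj hK T ⟨p2, y', l, l', T2⟩ with e | ⟨e1, e2⟩
  · exact e.symm
  · exact absurd e2 h1

/-- every vertex of weight one has an owner -/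
theorem W1.owner {q d : V} (h : W1 G c q d) : ∃ a, ¬ acc G c a ∧ Cr G c a d := by
  rcases h with ⟨h1, h2⟩ | ⟨-, p, -, h2, h3⟩ | ⟨-, w, -, h2, h3⟩
  · exact ⟨q, h1, h2⟩
  · exact ⟨p, h3, h2⟩
  · exact ⟨w, h3, h2⟩

theorem W2_W1 (hC : Pool.Agent.Helper96.MC.ST_C1) (hG : G.IsRegularOfDegree 3) (hj : 1 ≤ j)
    (hK : CK G c j) {q d a : V} (h : W2 G c q d) (h1 : ¬ acc G c a) (h2 : Cr G c a d) : False := by
  have hm := hK.1.mu1
  obtain ⟨hq, ⟨h3, h4⟩ | ⟨p, x', n, n', T, h3⟩ | ⟨p, h3, h4, h5, h6⟩⟩ := h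
  · have := (mem_Q0.1 h4).1.1
    rw [h2.col] at this
    cases this
  · rcases cr_two hC hG hj hK T h2 with e | ⟨e, e1⟩
    · exact h1 (e ▸ hq)
    · exact h3 q (T.apx hm) (e1 ▸ T.rqp)
  · have hqa := acc_apx hm hq
    have cp : c p = true := by
      obtain ⟨s, s', t⟩ := hqa
      rw [h3.2, t.1.1]
    have ha := h2.apx hm
    obtain ⟨pa, x', n, n', T⟩ := h2
    rcases (T.nx.nb p).1 h5.symm with e | e | e
    · exact h4 (e ▸ ha)
    · exact ne_col T.cx' cp e.symm
    · subst e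
      by_cases e : p = pa
      · exact h4 (e ▸ np_apx hC hG hj hK T e)
      · exact h1 (acc_ch ⟨pa, d, x', p, n', T, e, hqa, h3⟩ hq)

theorem W2_W2 (hC : Pool.Agent.Helper96.MC.ST_C1) (hC4 : ST_C4) (hG : G.IsRegularOfDegree 3)
    (hj : 1 ≤ j) (hK : CK G c j) {q q' d : V} (h : W2 G c q d) (h' : W2 G c q' d) : q' = q := by
  have hm := hK.1.mu1
  have k23 : ∀ {q q' p x' n n' p' : V}, Td G c q p d x' n n' → (∀ w, Apx G c w → ¬ Rm G c w n) →
      acc G c q' → Rm G c q' p' → ¬ Apx G c p' → G.Adj p' d → False := by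
    intro q q' p x' n n' p' T h3 k0 k1 k2 k3
    have hqa := acc_apx hm k0
    have cp : c p' = true := by
      obtain ⟨s, s', t⟩ := hqa
      rw [k1.2, t.1.1]
    rcases (T.nx.nb p').1 k3.symm with e | e | e
    · exact k2 (e ▸ T.apx hm)
    · exact ne_col T.cx' cp e.symm
    · exact h3 q' hqa (e ▸ k1)
  obtain ⟨hq, ⟨h3, h4⟩ | ⟨p, x', n, n', T, h3⟩ | ⟨p, h3, h4, h5, h6⟩⟩ := h
  · have cd := (mem_Q0.1 h4).1.1
    obtain ⟨hq', ⟨k3, k4⟩ | ⟨p', y', l, l', T', k3⟩ | ⟨p', k3, k4, k5, k6⟩⟩ := h'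
    · exact rm_uniq (hm d) k3.symm h3.symm
    · rw [T'.cx] at cd
      cases cd
    · rw [k6.1] at cd
      cases cd
  · obtain ⟨hq', ⟨k3, k4⟩ | ⟨p', y', l, l', T', k3⟩ | ⟨p', k3, k4, k5, k6⟩⟩ := h'
    · have cd := (mem_Q0.1 k4).1.1
      rw [T.cx] at cd
      cases cd
    · rcases cr_two hC hG hj hK T ⟨p', y', l, l', T'⟩ with e | ⟨e, e1⟩
      · exact e
      · exact absurd (e1 ▸ T.rqp) (h3 q (T.apx hm))
    · exact (k23 T h3 hq' k3 k4 k5).elim
  · obtain ⟨hq', ⟨k3, k4⟩ | ⟨p', y', l, l', T', k3⟩ | ⟨p', k3, k4, k5, k6⟩⟩ := h'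
    · have cd := (mem_Q0.1 k4).1.1
      rw [h6.1] at cd
      cases cd
    · exact (k23 T' k3 hq h3 h4 h5).elim
    · by_contra hne
      obtain ⟨m, hA⟩ := hq
      exact hC4 V G hG c j hj hK m q q' p p' d (acc_apx hm ⟨m, hA⟩) (acc_apx hm hq')
        (Ne.symm hne) h3 k3 h4 k4 h6 h5.symm k5.symm hA

theorem W1_two (hC : Pool.Agent.Helper96.MC.ST_C1) (hG : G.IsRegularOfDegree 3) (hj : 1 ≤ j)
    (hK : CK G c j) (d : V) : ∃ a b, ∀ q, W1 G c q d → q = a ∨ q = b := by
  have hm := hK.1.mu1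
  by_cases h : ∃ a, ¬ acc G c a ∧ Cr G c a d
  swap
  · exact ⟨d, d, fun q hq => absurd hq.owner h⟩
  obtain ⟨a, ha, hc⟩ := h
  have haa := hc.apx hm
  obtain ⟨p, x', n, n', T⟩ := hc
  by_cases hp : Apx G c p
  · refine ⟨a, p, fun q hq => ?_⟩
    rcases hq with ⟨h1, h2⟩ | ⟨h1, p2, h2, h3, h4⟩ | ⟨h1, w, h2, h3, h4⟩
    · rcases cr_two hC hG hj hK T h2 with e | ⟨e, e1⟩
      · exact Or.inl e
      · exact Or.inr (e.trans e1)
    · rcases cr_two hC hG hj hK T h3 with e | ⟨e, e1⟩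
      · refine Or.inr ?_
        rw [e] at h2
        exact rm_uniq (hm a) h2.symm T.rqp
      · refine Or.inl ?_
        rw [e, e1] at h2
        exact rm_uniq (hm p) h2.symm T.rqp.symm
    · exfalso
      rcases cr_two hC hG hj hK T h3 with e | ⟨e, e1⟩
      · rw [e] at h2
        exact ch_mate hC hG hj hK h2 T.rqp hp
      · rw [e, e1] at h2
        exact ch_mate hC hG hj hK h2 T.rqp.symm haa
  · have hnp : n ≠ p := fun e => hp (np_apx hC hG hj hK T e)
    have key : ∀ {w : V}, Cr G c w d → w = a := by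
      intro w hw
      rcases cr_two hC hG hj hK T hw with e | ⟨e, e1⟩
      · exact e
      · exact absurd e1 hnp
    by_cases hb : ∃ b, Ch G c b a
    · obtain ⟨b, hb⟩ := hb
      refine ⟨a, b, fun q hq => ?_⟩
      rcases hq with ⟨h1, h2⟩ | ⟨h1, p2, h2, h3, h4⟩ | ⟨h1, w, h2, h3, h4⟩
      · exact Or.inl (key h2)
      · rw [key h3] at h2
        have e : q = p := rm_uniq (hm a) h2.symm T.rqp
        exact absurd (e ▸ acc_apx hm h1) hp
      · rw [key h3] at h2
        exact Or.inr (par_uniq hC hG hj hK h2 hb)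
    · refine ⟨a, a, fun q hq => ?_⟩
      rcases hq with ⟨h1, h2⟩ | ⟨h1, p2, h2, h3, h4⟩ | ⟨h1, w, h2, h3, h4⟩
      · exact Or.inl (key h2)
      · rw [key h3] at h2
        have e : q = p := rm_uniq (hm a) h2.symm T.rqp
        exact absurd (e ▸ acc_apx hm h1) hp
      · rw [key h3] at h2
        exact absurd ⟨q, h2⟩ hb

end

section

variable {V : Type} [Fintype V] [DecidableEq V] (G : SimpleGraph V) [DecidableRel G.Adj]

open Classical in
/-- number of bad vertices which do not pay -/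
noncomputable def nbd (c : V → Bool) : ℕ :=
  (Finset.univ.filter (fun v => Bd G c v ∧ ¬ dom G c v)).card

end

/-- the refined count -/
def ST_CNTL : Prop :=
  ∀ (V : Type) [Fintype V] [DecidableEq V] (G : SimpleGraph V) [DecidableRel G.Adj],
    G.IsRegularOfDegree 3 → ∀ (c : V → Bool) (j : ℕ), 1 ≤ j → Exm G c j →
      Ta G c + nbd G c ≤ (Dd G c).card + (Q0 G c).card

theorem st_CNTL : Pool.Agent.Helper96.MC.ST_C1 → Pool.Agent.Helper96.MC.ST_C2 → ST_C4 → ST_C6 →
    ST_C7 → ST_CNTL := by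
  classical
  intro hC1 hC2 hC4 hC6 hC7 V _ _ G _ hG c j hj hE
  have hK := hE.ck
  have hO := hK.1
  have hm := hO.mu1
  have dis : Disjoint (Dd G c) (Q0 G c) := by
    rw [Finset.disjoint_left]
    intro v h1 h2
    have e1 := (mem_Dd.1 h1).1.1
    have e2 := (mem_Q0.1 h2).1.1
    rw [e1] at e2
    cases e2
  set N := Finset.univ.filter (fun v => Bd G c v ∧ ¬ dom G c v) with hN
  have hND : N ⊆ Dd G c := by
    intro v hv
    rw [hN, Finset.mem_filter] at hv
    exact hv.2.1.1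
  have hdis2 : Disjoint (Dd G c \ N) (Q0 G c) := dis.mono_left Finset.sdiff_subset
  have hcard : (Dd G c \ N ∪ Q0 G c).card + N.card = (Dd G c).card + (Q0 G c).card := by
    rw [Finset.card_union_of_disjoint hdis2]
    have := Finset.card_sdiff_add_card_eq_card hND
    omega
  have hTa : Ta G c = (Finset.univ.filter (fun v => Apx G c v)).card := rfl
  have hnb : nbd G c = N.card := by
    unfold nbd
    rw [hN]
  have memT : ∀ {d : V}, d ∈ Dd G c → ¬ (Bd G c d ∧ ¬ dom G c d) → d ∈ Dd G c \ N ∪ Q0 G c := by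
    intro d h1 h2
    refine Finset.mem_union_left _ (Finset.mem_sdiff.2 ⟨h1, ?_⟩)
    rw [hN, Finset.mem_filter]
    exact fun h => h2 h.2
  have corT : ∀ {q p x x' n n' : V}, Td G c q p x x' n n' → tQ G c n →
      x ∈ Dd G c \ N ∪ Q0 G c := by
    intro q p x x' n n' T h
    exact memT (td_Dd hm T h) fun h1 => td_nBd hm T h1.1
  have main : (Finset.univ.filter (fun v => Apx G c v)).card ≤ (Dd G c \ N ∪ Q0 G c).card := by
    refine two_count _ _ (W1 G c) (W2 G c) ?_ ?_ ?_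
    · intro q hq
      rw [Finset.mem_filter] at hq
      have hq := hq.2
      obtain ⟨s, s', hs⟩ := id hq
      obtain ⟨p, n, n', T⟩ := td_of hG hm hs
      -- the corners of an inaccessible apex
      have two : ∀ {a pa x x' n n' : V}, Td G c a pa x x' n n' → ¬ acc G c a →
          x ∈ Dd G c \ N ∪ Q0 G c ∧ x' ∈ Dd G c \ N ∪ Q0 G c ∧ x ≠ x' ∧ Cr G c a x ∧
            Cr G c a x' := by
        intro a pa x x' n n' T ha
        exact ⟨corT T (nacc_Q hm T ha), corT T.swap (nacc_Q hm T.swap ha), T.nq.yz,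
          ⟨_, _, _, _, T⟩, ⟨_, _, _, _, T.swap⟩⟩
      by_cases ha : acc G c q
      swap
      · obtain ⟨h1, h2, h3, h4, h5⟩ := two T ha
        exact Or.inr ⟨s, s', h1, h2, h3, Or.inl ⟨ha, h4⟩, Or.inl ⟨ha, h5⟩⟩
      by_cases hp : Apx G c p
      · obtain ⟨y, y', l, l', T2⟩ := td_ex hG hm hp T.rqp.symm
        have hna : ¬ acc G c p := by
          rintro ⟨m', h'⟩
          obtain ⟨m, h⟩ := ha
          exact hC6 V G hG c j hj hE m m' q p hq hp T.rqp h h'
        obtain ⟨h1, h2, h3, h4, h5⟩ := two T2 hna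
        exact Or.inr ⟨y, y', h1, h2, h3, Or.inr (Or.inl ⟨ha, p, T.rqp, h4, hna⟩),
          Or.inr (Or.inl ⟨ha, p, T.rqp, h5, hna⟩)⟩
      by_cases hp0 : p ∈ Q0 G c
      · exact Or.inl ⟨p, Finset.mem_union_right _ hp0, ha, Or.inl ⟨T.rqp, hp0⟩⟩
      have hQp := (td_tQ hm T).2
      obtain ⟨u, hu⟩ : ∃ u, G.Adj p u ∧ tS G c u := by
        by_contra hno
        push Not at hno
        apply hp0
        rw [mem_Q0]
        refine ⟨hQp, ?_⟩
        unfold nS
        rw [Finset.card_eq_zero, Finset.filter_eq_empty_iff]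
        rintro w - ⟨h1, h2⟩
        exact hno w h1 h2
      obtain ⟨hpu, htu⟩ := hu
      obtain ⟨um, b, hS⟩ := sv_ex hG htu hpu.symm T.cp
      have hub : G.Adj u b := (hS.n3.nb b).2 (by simp)
      have hbp : b ≠ p := hS.n3.yz.symm
      rcases hC2 V G hG c j hj hK q p u b hq T.rqp hp hpu htu hub hbp hS.cb with hb | ⟨hb, hPm⟩
      · have huD : u ∈ Dd G c := (sv_Dd hm hS).2 ⟨hQp, hb⟩
        by_cases hbad : Bd G c u ∧ ¬ dom G c u
        swap
        · exact Or.inl ⟨u, memT huD hbad, ha, Or.inr (Or.inr ⟨p, T.rqp, hp, hpu, htu⟩)⟩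
        obtain ⟨hb1, hb2⟩ := hbad
        have hZ : ¬ Zr G c q := fun hZ => hb2 ⟨hb1, q, p, hZ, T.rqp, hp, hpu⟩
        obtain ⟨p1, x, x', l, l', T1, h1, h2⟩ : ∃ p x x' n n', Td G c q p x x' n n' ∧
            ¬ tA G c n ∧ ¬ ∃ w, Apx G c w ∧ Rm G c w n ∧ acc G c w := by
          by_contra hno
          push Not at hno
          refine hZ ⟨hq, ha, ⟨p, u, T.rqp, hp, hpu, hb1⟩, ?_⟩
          intro p x x' n n' T1
          by_cases h1 : tA G c n
          · exact Or.inl h1
          · exact Or.inr (hno p x x' n n' T1 h1)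
        have hlQ : tQ G c l := by
          rcases tA_or_tQ hm T1.cn with h | h
          · exact absurd h h1
          · exact h
        by_cases hw : ∃ w, Apx G c w ∧ Rm G c w l
        · obtain ⟨w, hw1, hw2⟩ := hw
          have hwa : ¬ acc G c w := fun h => h2 ⟨w, hw1, hw2, h⟩
          obtain ⟨y, y', k, k', T2⟩ := td_ex hG hm hw1 hw2
          obtain ⟨g1, g2, g3, g4, g5⟩ := two T2 hwa
          have hch : Ch G c q w := ⟨p1, x, x', l, l', T1, acc_np hC1 hG hj hK T1 ha, hw1, hw2⟩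
          exact Or.inr ⟨y, y', g1, g2, g3, Or.inr (Or.inr ⟨ha, w, hch, g4, hwa⟩),
            Or.inr (Or.inr ⟨ha, w, hch, g5, hwa⟩)⟩
        · refine Or.inl ⟨x, corT T1 hlQ, ha, Or.inr (Or.inl ⟨p1, x', l, l', T1, ?_⟩)⟩
          intro w h3 h4
          exact hw ⟨w, h3, h4⟩
      · obtain ⟨h7, h8⟩ := hC7 V G hG c j hj hE q p s s' n n' u b T hp hpu htu hub hbp hb hPm
        have fin : ∀ {x x' n n' : V}, Td G c q p x x' n n' → ¬ tA G c n →
            ∃ d ∈ Dd G c \ N ∪ Q0 G c, W2 G c q d := by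
          intro x x' n n' T1 hn
          have hlQ : tQ G c n := by
            rcases tA_or_tQ hm T1.cn with h | h
            · exact absurd h hn
            · exact h
          refine ⟨x, corT T1 hlQ, ha, Or.inr (Or.inl ⟨p, x', n, n', T1, ?_⟩)⟩
          intro w h3 h4
          exact h7 w ⟨p, x, x', n, n', T1, acc_np hC1 hG hj hK T1 ha, h3, h4⟩
        by_cases hn : tA G c n
        · exact Or.inl (fin T.swap fun h => h8 ⟨hn, h⟩)
        · exact Or.inl (fin T hn)
    · intro d _ q q' h2 h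
      rcases h with h | h
      · obtain ⟨a, ha1, ha2⟩ := h.owner
        exact (W2_W1 hC1 hG hj hK h2 ha1 ha2).elim
      · exact W2_W2 hC1 hC4 hG hj hK h2 h
    · intro d _
      exact W1_two hC1 hG hj hK d
  rw [hTa, hnb]
  have e : (Finset.univ.filter (fun v => Apx G c v)).card =
      (Finset.univ.filter (fun v => Apx G c v)).card := rfl
  omega

/-- row CC -/
theorem st_CC (h : ST_CNTL) : ST_CC := by
  intro V _ _ G _ hG c j hj hE
  have := h V G hG c j hj hE
  omega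

end Pool.Agent.Helper53.MC
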