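import Mathlib
import Pool.Agent.Helper53.MC.CNT
import Pool.Agent.Helper96.MC.M12
import Pool.Agent.Helper96.MC.C23
import Pool.Agent.Helper96.MC.THC
import Pool.Agent.Helper79.MC.C1
import Pool.Agent.Helper91.MC.C45F
import Pool.Agent.Helper6.MC.C6
import Pool.Agent.Helper92.MC.FCNT

/-!
MP_4042d8_co, section C: all rows without hypotheses; theorem C.
-/

set_option autoImplicit false
set_option linter.unusedSectionVars false
set_option linter.unusedSimpArgs false
set_option linter.unusedVariables false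

namespace Pool.Agent.Helper53.MC

open Pool.Agent.Helper27.MC
open Pool.Agent.Helper51.MC Pool.Agent.Helper88.MC Pool.Agent.Helper64.MC
open Pool.Agent.Helper91.MC Pool.Agent.Helper42.MC Pool.Agent.Helper96.MC

theorem cC1 : Pool.Agent.Helper96.MC.ST_C1 := Pool.Agent.Helper79.MC.C1

theorem cC2 : Pool.Agent.Helper96.MC.ST_C2 := Pool.Agent.Helper96.MC.C2

theorem cC3 : Pool.Agent.Helper96.MC.ST_C3 := Pool.Agent.Helper96.MC.C3 cC1

theorem cC4 : ST_C4 := Pool.Agent.Helper91.MC.CF.st_C4 Pool.Agent.Helper96.MC.M1 cC1 cC2 cC3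

theorem cC5 : ST_C5 := Pool.Agent.Helper91.MC.CF.st_C5 Pool.Agent.Helper96.MC.M1 cC1 cC2 cC3

theorem cC6 : ST_C6 := Pool.Agent.Helper6.MC.C6 Pool.Agent.Helper96.MC.M1 cC1 cC5

theorem cC7 : ST_C7 := st_C7 Pool.Agent.Helper96.MC.M1 Pool.Agent.Helper96.MC.M2 cC1 cC3

theorem cCNTL : ST_CNTL := st_CNTL cC1 cC2 cC4 cC6 cC7

theorem cCC : ST_CC := st_CC cCNTL

theorem cTHC : ST_THC := Pool.Agent.Helper96.MC.THC Pool.Agent.Helper92.MC.st_FCNT cCC

end Pool.Agent.Helper53.MC
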