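import Mathlib
import Pool.Agent.Helper33.MC.StG
import Pool.Agent.Helper53.MC.C7

/-!
MP_4042d8_co, section D, part II, row G_C5b (Case 5n2).
-/

set_option autoImplicit false
set_option linter.unusedSectionVars false
set_option linter.unusedSimpArgs false
set_option linter.unusedVariables false

namespace Pool.Agent.Helper53.MC.B5

open Pool.Agent.Helper27.MC hiding Fr T1 ter
open Pool.Agent.Helper51.MC Pool.Agent.Helper88.MC Pool.Agent.Helper64.MC
open Pool.Agent.Helper91.MC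
open Pool.Agent.Helper79.MC (Sqg)
open Pool.Agent.Helper91.MC.GK (Khb)
open Pool.Agent.Helper96.MC (ne_col)
open Pool.Agent.Helper33.MC
open Pool.Agent.Helper53.MC (mem_Fr' tA_nb)

variable {V : Type} [Fintype V] [DecidableEq V] {G : SimpleGraph V} [DecidableRel G.Adj]
  {c : V → Bool} {j : ℕ} {L : V → V → Prop} {H H1 H' : Finset V}

/-! ### basic facts -/

theorem clr_mono (h : H ⊆ H') {v : V} (hv : Clr G H' v) : Clr G H v :=
  ⟨fun h1 => hv.1 (h h1), fun w hw h1 => hv.2 w hw (h h1)⟩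

theorem bare_mono (h : H ⊆ H') {u v : V} (hv : Bare G c H u v) : Bare G c H' u v :=
  fun y hy => (hv y hy).imp id fun h1 => h h1

/-- a vertex which is not clear after adding `K` -/
theorem nclr {K : Finset V} {v : V} (h : Clr G H v) (h' : ¬ Clr G (H ∪ K) v) :
    v ∈ K ∨ ∃ z ∈ K, G.Adj v z := by
  by_contra hno
  push Not at hno
  refine h' ⟨?_, ?_⟩
  · rw [Finset.mem_union, not_or]
    exact ⟨h.1, hno.1⟩
  · intro w hw
    rw [Finset.mem_union, not_or]
    exact ⟨h.2 w hw, fun h1 => hno.2 w h1 hw⟩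

theorem fr_T1 {s : V} (h : s ∈ Fr G c) (h' : s ∈ T1 G c) : False := by
  have h1 := (mem_Fr.1 h).2
  have h2 := (mem_T1.1 h').2
  omega

section facts

variable (F : FxG G c j L)
include F

theorem t1_dat {t x : V} (ht : t ∈ T1 G c) (hx : tA G c x) (h : G.Adj t x) :
    ∃ r q, Sv G c t r x q ∧ tQ G c q := by
  obtain ⟨r, q, hs⟩ := sv_ex F.reg (mem_T1.1 ht).1 h hx.1
  rcases (sv_T1 F.mu1 hs).1 ht with h1 | h1
  · exact ⟨r, q, hs, h1.2⟩
  · exact (tA_not_tQ hx h1.1).elim

theorem t1_A {t x y : V} (ht : t ∈ T1 G c) (hx : tA G c x) (h : G.Adj t x) (hy : tA G c y)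
    (h' : G.Adj t y) : y = x := by
  obtain ⟨r, q, hs, hq⟩ := t1_dat F ht hx h
  rcases (hs.n3.nb y).1 h' with e | e | e
  · exact absurd e.symm (ne_col hs.cm hy.1)
  · exact e
  · exact absurd hq (tA_not_tQ (e ▸ hy))

theorem khb_t {u v a b t1 t2 r1 r2 p1 p2 : V} (K : Khb G c u v a b t1 t2 r1 r2 p1 p2) :
    t1 ∈ T1 G c ∧ t2 ∈ T1 G c := by
  have q1 : tQ G c r1 := ⟨K.h1.cb, mu_of_rm F.mu1 K.q1⟩
  have q2 : tQ G c r2 := ⟨K.h2.cb, mu_of_rm F.mu1 K.q2⟩
  exact ⟨(sv_T1 F.mu1 K.h1).2 (Or.inl ⟨K.ta, q1⟩), (sv_T1 F.mu1 K.h2).2 (Or.inl ⟨K.ta, q2⟩)⟩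

theorem khb_fr {u v a b t1 t2 r1 r2 p1 p2 : V} (K : Khb G c u v a b t1 t2 r1 r2 p1 p2) :
    u ∈ Fr G c := (sv_Fr F.mu1 K.hu).2 ⟨K.ta, K.tb⟩

theorem khb_Q {u v a b t1 t2 r1 r2 p1 p2 : V} (K : Khb G c u v a b t1 t2 r1 r2 p1 p2) :
    tQ G c r1 ∧ tQ G c p1 :=
  ⟨⟨K.h1.cb, mu_of_rm F.mu1 K.q1⟩, ⟨by rw [K.q1.2, K.h1.cb], mu_of_rm F.mu1 K.q1.symm⟩⟩

/-- the fact K1 in the form used here: an `S`-neighbour `g` in `T1` of `p1` -/
theorem k1_use {u v a b t1 t2 r1 r2 p1 p2 g m e : V}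
    (K : Khb G c u v a b t1 t2 r1 r2 p1 p2) (hg : g ∈ T1 G c) (hS : Sv G c g m e p1)
    (he : tA G c e) : e = b ∨ g = v ∨ g = t2 := by
  by_contra hno
  push Not at hno
  obtain ⟨h1, h2, h3⟩ := hno
  have apg : G.Adj p1 g := ((hS.n3.nb p1).2 (by simp)).symm
  have hrg : r1 ≠ g := (ne_col hS.cs K.h1.cb).symm
  obtain ⟨z, hz⟩ := Pool.Agent.Helper96.MC.n3_of2 F.reg K.q1.1.symm apg hrg
  have tz := F.g3' u v a b t1 t2 r1 r2 p1 p2 g z K hz (mem_T1.1 hg).1
  exact h1 (F.k1 u v a b t1 t2 r1 r2 p1 p2 g z m e K hz tz (sv_swap hS) he h2 h3)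

end facts

/-! ### branches -/

/-- branch `t` of the slot `(f, x)` with `k` -/
def Br (G : SimpleGraph V) [DecidableRel G.Adj] (c : V → Bool) (H : Finset V) (t f x k : V) :
    Prop :=
  ∃ v y t' q q' k', Khb G c f v x y t t' q q' k k' ∧ LS G c H f x ∧ Clr G H k

theorem gb_iff {t : V} : GB G c H t ↔ ∃ f x k, Br G c H t f x k := by
  constructor
  · rintro ⟨u, v, a, b, t', q, q', k, k', h1, h2, h3⟩
    exact ⟨u, a, k, v, b, t', q, q', k', h1, h2, h3⟩
  · rintro ⟨u, a, k, v, b, t', q, q', k', h1, h2, h3⟩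
    exact ⟨u, v, a, b, t', q, q', k, k', h1, h2, h3⟩

theorem br_mono (h : H ⊆ H') {t f x k : V} (hb : Br G c H' t f x k) : Br G c H t f x k := by
  obtain ⟨v, y, t', q, q', k', h1, h2, h3⟩ := hb
  exact ⟨v, y, t', q, q', k', h1, ⟨h2.1, h2.2.1, h2.2.2.1, clr_mono h h2.2.2.2.1,
    clr_mono h h2.2.2.2.2⟩, clr_mono h h3⟩

theorem ls_mono (h : H ⊆ H') {f x : V} (h2 : LS G c H' f x) : LS G c H f x :=
  ⟨h2.1, h2.2.1, h2.2.2.1, clr_mono h h2.2.2.2.1, clr_mono h h2.2.2.2.2⟩

/-! ### the situation of Case 5n2 -/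

/-- the hypotheses of the case used here -/
structure Hyp (G : SimpleGraph V) [DecidableRel G.Adj] (c : V → Bool) (j : ℕ) (L : V → V → Prop)
    (H : Finset V) : Prop where
  F : FxG G c j L
  I : Inv G c H
  n1 : ¬ PN G c H
  n4 : ¬ Q4G G c H
  ns : ¬ Q5s G c L H
  na : ¬ Q5a G c H

theorem Hyp.typ (h : Hyp G c j L H) {f x : V} (hg : GSG G c L H f x) :
    ∃ t r, MSG G c H f x t r ∧ Avl G c H t := by
  have F := h.F
  obtain ⟨hl, h1 | ⟨t, h1, h2, h3, h4⟩ | ⟨g, h1, h2, h3, h4, h5⟩⟩ := hg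
  · exact absurd ⟨f, x, hl, h1⟩ h.n1
  · obtain ⟨r, q, hs, hq⟩ := t1_dat F h3.1 hl.2.1 h1.symm
    have hr : Rm G c t r := sv_rm hs
    have hrH : r ∉ H := h3.2.2 r hr.1
    have hrf : r ≠ f := by
      rintro rfl
      refine h.n1 ⟨r, x, hl, fun w hw hne => ?_⟩
      by_cases e : w = t
      · subst e
        intro y hy
        exact Or.inl (rm_uniq (F.mu1 w) hy hr)
      · exact h4 w hw hne e
    exact ⟨t, r, ⟨hl, h1, h2, h3.1, hr, hrf, hrH, h4⟩, h3⟩
  · exfalso
    obtain ⟨b, v1, v2, za, zb, hq⟩ := F.g1 x f g hl.2.1 hl.1 h4.1 (Ne.symm h2) h3 hl.2.2.1.symm h1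
    exact h.ns ⟨f, g, x, b, v1, v2, za, zb, hq, ⟨hl, Or.inr (Or.inr ⟨g, h1, h2, h3, h4, h5⟩)⟩, h4⟩

/-- at most one good pair at a vertex -/
theorem Hyp.one (h : Hyp G c j L H) {f f' x : V} (hg : GSG G c L H f x) (hg' : GSG G c L H f' x) :
    f = f' := by
  by_contra hne
  obtain ⟨t, r, hM, hA⟩ := h.typ hg
  have hl' := hg'.1
  have e : f' ≠ t := by
    rintro rfl
    exact fr_T1 hl'.1 hM.2.2.2.1
  have hb := hM.2.2.2.2.2.2.2 f' hl'.2.2.1.symm (Ne.symm hne) e
  obtain ⟨m, hm⟩ := exists_mate (mem_Fr.1 hl'.1).1.2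
  rcases hb m hm with e1 | e1
  · subst e1
    exact h.na ⟨m, f', x, t, r, hM, hA, hm.symm, hl'.2.2.1.symm, hl'.1, hl'.2.2.2.1⟩
  · exact hl'.2.2.2.1.2 m hm.1 e1

/-- no good pair at a `K`-slot -/
theorem Hyp.nK (h : Hyp G c j L H) {f x t k : V} (hb : Br G c H t f x k) (hg : GSG G c L H f x) :
    False := by
  obtain ⟨t0, r0, hM, -⟩ := h.typ hg
  obtain ⟨v, y, t', q, q', k', K, hl, -⟩ := hb
  obtain ⟨h1, h2⟩ := khb_t h.F K
  have ax : G.Adj x t := (K.ha.n3.nb t).2 (by simp)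
  have ax' : G.Adj x t' := (K.ha.n3.nb t').2 (by simp)
  have tf : t ≠ f := K.ha.n3.xy.symm
  have tf' : t' ≠ f := K.ha.n3.xz.symm
  have key : ∀ {s s' : V}, G.Adj x s → s ≠ f → Rm G c s s' → G.Adj x s' → s' ≠ f → s ≠ t0 →
      False := by
    intro s s' a1 a2 a3 a4 a5 a6
    rcases hM.2.2.2.2.2.2.2 s a1 a2 a6 s' a3 with e | e
    · exact a5 e
    · exact hl.2.2.2.2.2 s' a4 e
  by_cases e : t = t0
  · refine key ax' tf' (sv_rm K.h2) ax tf ?_
    rintro rfl
    exact K.ha.n3.yz e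
  · exact key ax tf (sv_rm K.h1) ax' tf' e

section cards

open Classical in
/-- good pairs of the free vertex `f` -/
noncomputable def PF (G : SimpleGraph V) [DecidableRel G.Adj] (c : V → Bool) (L : V → V → Prop)
    (H : Finset V) (f : V) : Finset (V × V) := (goodG G c L H).filter (fun p => p.1 = f)

open Classical in
/-- branches of the free vertex `f` -/
noncomputable def BF (G : SimpleGraph V) [DecidableRel G.Adj] (c : V → Bool)
    (H : Finset V) (f : V) : Finset V := Finset.univ.filter (fun t => ∃ x k, Br G c H t f x k)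

open Classical in
/-- good pairs at the vertex `n` -/
noncomputable def PX (G : SimpleGraph V) [DecidableRel G.Adj] (c : V → Bool) (L : V → V → Prop)
    (H : Finset V) (n : V) : Finset (V × V) := (goodG G c L H).filter (fun p => p.2 = n)

open Classical in
/-- branches with `k = n` -/
noncomputable def BX (G : SimpleGraph V) [DecidableRel G.Adj] (c : V → Bool)
    (H : Finset V) (n : V) : Finset V := Finset.univ.filter (fun t => ∃ f x, Br G c H t f x n)

theorem mem_goodG {p : V × V} : p ∈ goodG G c L H ↔ GSG G c L H p.1 p.2 := by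
  unfold goodG
  simp

theorem mem_goodB {t : V} : t ∈ goodB G c H ↔ GB G c H t := by
  unfold goodB
  simp

theorem mem_PF {p : V × V} {f : V} : p ∈ PF G c L H f ↔ GSG G c L H p.1 p.2 ∧ p.1 = f := by
  unfold PF
  rw [Finset.mem_filter, mem_goodG]

theorem mem_PX {p : V × V} {f : V} : p ∈ PX G c L H f ↔ GSG G c L H p.1 p.2 ∧ p.2 = f := by
  unfold PX
  rw [Finset.mem_filter, mem_goodG]

theorem mem_BF {t f : V} : t ∈ BF G c H f ↔ ∃ x k, Br G c H t f x k := by
  unfold BF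
  simp

theorem mem_BX {t f : V} : t ∈ BX G c H f ↔ ∃ y x, Br G c H t y x f := by
  unfold BX
  simp

/-- one hub -/
theorem Hyp.hub (h : Hyp G c j L H) (f x : V) :
    2 * ((PF G c L H f).filter (fun p => p.2 = x)).card +
      ((BF G c H f).filter (fun t => G.Adj x t)).card ≤ 2 := by
  classical
  have hP : ((PF G c L H f).filter (fun p => p.2 = x)).card ≤ 1 := by
    rw [Finset.card_le_one]
    intro p hp p' hp'
    simp only [Finset.mem_filter, mem_PF] at hp hp'
    exact Prod.ext (hp.1.2.trans hp'.1.2.symm) (hp.2.trans hp'.2.symm)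
  by_cases hB : ((BF G c H f).filter (fun t => G.Adj x t)) = ∅
  · rw [hB, Finset.card_empty]
    omega
  · obtain ⟨t, ht⟩ := Finset.nonempty_iff_ne_empty.2 hB
    simp only [Finset.mem_filter, mem_BF] at ht
    obtain ⟨⟨x', k, hb⟩, hxt⟩ := ht
    have hb' := hb
    obtain ⟨v, y, t', q, q', k', K, hl, hk⟩ := hb
    obtain ⟨h1, h2⟩ := khb_t h.F K
    have cx : c x = false ∨ tA G c x ∨ tQ G c x := by
      cases e : c x
      · exact Or.inl rfl
      · exact Or.inr (tA_or_tQ h.F.mu1 e)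
    -- the hub is `x` or `x` has another type
    have hP0 : (PF G c L H f).filter (fun p => p.2 = x) = ∅ := by
      rw [Finset.filter_eq_empty_iff]
      rintro ⟨p1, p2⟩ hp e
      rw [mem_PF] at hp
      simp only at hp e
      obtain ⟨hp1, e1⟩ := hp
      subst e e1
      have tx := hp1.1.2.1
      have e3 : p2 = x' := t1_A h.F h1 K.ta ((K.ha.n3.nb t).2 (by simp)).symm tx hxt.symm
      subst e3
      exact h.nK hb' hp1
    rw [hP0, Finset.card_empty]
    have hB2 : ((BF G c H f).filter (fun t => G.Adj x t)) ⊆ {t, t'} ∨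
        ((BF G c H f).filter (fun t => G.Adj x t)).card ≤ 2 := by
      rcases cx with e | e | e
      · -- `x` false: adjacent to a vertex of `T1`: mates
        right
        have hs : ((BF G c H f).filter (fun t => G.Adj x t)) ⊆ {t} := by
          intro t2 ht2
          simp only [Finset.mem_filter, mem_BF] at ht2
          obtain ⟨⟨x2, k2, hb2⟩, hxt2⟩ := ht2
          obtain ⟨v2, y2, t2', q2, q2', k2', K2, hl2, hk2⟩ := hb2
          have c2 : c t2 = false := K2.h1.cs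
          have c1 : c t = false := K.h1.cs
          rw [Finset.mem_singleton]
          exact rm_uniq (h.F.mu1 x) ⟨hxt2, by rw [c2, e]⟩ ⟨hxt, by rw [c1, e]⟩
        exact (Finset.card_le_card hs).trans (by simp)
      · left
        have e3 : x = x' := t1_A h.F h1 K.ta ((K.ha.n3.nb t).2 (by simp)).symm e hxt.symm
        subst e3
        intro t2 ht2
        simp only [Finset.mem_filter, mem_BF] at ht2
        obtain ⟨⟨x2, k2, hb2⟩, hxt2⟩ := ht2
        obtain ⟨v2, y2, t2', q2, q2', k2', K2, hl2, hk2⟩ := hb2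
        rw [Finset.mem_insert, Finset.mem_singleton]
        rcases (K.ha.n3.nb t2).1 hxt2 with e4 | e4 | e4
        · exact absurd (khb_t h.F K2).1 (fun h5 => fr_T1 (e4 ▸ hl.1) h5)
        · exact Or.inl e4
        · exact Or.inr e4
      · right
        obtain ⟨m, hm⟩ := exists_mate e.2
        obtain ⟨z1, z2, hz⟩ := Pool.Agent.Helper96.MC.n3_of h.F.reg hm.1
        have hs : ((BF G c H f).filter (fun t => G.Adj x t)) ⊆ {z1, z2} := by
          intro t2 ht2
          simp only [Finset.mem_filter, mem_BF] at ht2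
          obtain ⟨⟨x2, k2, hb2⟩, hxt2⟩ := ht2
          obtain ⟨v2, y2, t2', q2, q2', k2', K2, hl2, hk2⟩ := hb2
          have c2 : c t2 = false := K2.h1.cs
          have cm : c m = true := by rw [hm.2, e.1]
          rw [Finset.mem_insert, Finset.mem_singleton]
          rcases (hz.nb t2).1 hxt2 with e4 | e4 | e4
          · exact absurd e4 (ne_col c2 cm)
          · exact Or.inl e4
          · exact Or.inr e4
        exact (Finset.card_le_card hs).trans Finset.card_le_two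
    rcases hB2 with h3 | h3
    · have := (Finset.card_le_card h3).trans Finset.card_le_two
      omega
    · omega

/-- the items of one free vertex -/
theorem Hyp.fst (h : Hyp G c j L H) (f : V) :
    2 * (PF G c L H f).card + (BF G c H f).card ≤ 4 := by
  classical
  by_cases hf : f ∈ Fr G c
  · obtain ⟨m, hm⟩ := exists_mate (mem_Fr.1 hf).1.2
    obtain ⟨x, y, h3⟩ := Pool.Agent.Helper96.MC.n3_of h.F.reg hm.1
    have cf := (mem_Fr.1 hf).1.1
    have cm : c m = false := by rw [hm.2, cf]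
    have e1 : PF G c L H f ⊆ (PF G c L H f).filter (fun p => p.2 = x) ∪
        (PF G c L H f).filter (fun p => p.2 = y) := by
      intro p hp
      have hp' := mem_PF.1 hp
      rw [Finset.mem_union, Finset.mem_filter, Finset.mem_filter]
      have ad : G.Adj f p.2 := hp'.2 ▸ hp'.1.1.2.2.1
      rcases (h3.nb p.2).1 ad with e | e | e
      · exact absurd e.symm (ne_col cm hp'.1.1.2.1.1)
      · exact Or.inl ⟨hp, e⟩
      · exact Or.inr ⟨hp, e⟩
    have e2 : BF G c H f ⊆ (BF G c H f).filter (fun t => G.Adj x t) ∪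
        (BF G c H f).filter (fun t => G.Adj y t) := by
      intro t ht
      have ht' := mem_BF.1 ht
      obtain ⟨z, k, v, y', t', q, q', k', K, hl, hk⟩ := ht'
      rw [Finset.mem_union, Finset.mem_filter, Finset.mem_filter]
      have ad : G.Adj z t := (K.ha.n3.nb t).2 (by simp)
      rcases (h3.nb z).1 hl.2.2.1 with e | e | e
      · exact absurd e.symm (ne_col cm hl.2.1.1)
      · exact Or.inl ⟨ht, e ▸ ad⟩
      · exact Or.inr ⟨ht, e ▸ ad⟩
    have h1 := h.hub f x
    have h2 := h.hub f y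
    have h4 := (Finset.card_le_card e1).trans (Finset.card_union_le _ _)
    have h5 := (Finset.card_le_card e2).trans (Finset.card_union_le _ _)
    omega
  · have e1 : PF G c L H f = ∅ := by
      rw [Finset.eq_empty_iff_forall_notMem]
      intro p hp
      have hp' := mem_PF.1 hp
      exact hf (hp'.2 ▸ hp'.1.1.1)
    have e2 : BF G c H f = ∅ := by
      rw [Finset.eq_empty_iff_forall_notMem]
      intro t ht
      obtain ⟨x, k, v, y, t', q, q', k', K, hl, hk⟩ := mem_BF.1 ht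
      exact hf hl.1
    rw [e1, e2]
    simp

/-- the items at one vertex -/
theorem Hyp.snd (h : Hyp G c j L H) (n : V) :
    2 * (PX G c L H n).card + (BX G c H n).card ≤ 2 := by
  classical
  by_cases hn : tA G c n
  · have e2 : BX G c H n = ∅ := by
      rw [Finset.eq_empty_iff_forall_notMem]
      intro t ht
      obtain ⟨f, x, v, y, t', q, q', k', K, hl, hk⟩ := mem_BX.1 ht
      exact tA_not_tQ hn (khb_Q h.F K).2
    have e1 : (PX G c L H n).card ≤ 1 := by
      rw [Finset.card_le_one]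
      rintro ⟨p1, p2⟩ hp ⟨p1', p2'⟩ hp'
      rw [mem_PX] at hp hp'
      simp only at hp hp'
      obtain ⟨a1, a2⟩ := hp
      obtain ⟨b1, b2⟩ := hp'
      subst a2 b2
      rw [h.one a1 b1]
    rw [e2, Finset.card_empty]
    omega
  · have e1 : PX G c L H n = ∅ := by
      rw [Finset.eq_empty_iff_forall_notMem]
      intro p hp
      have hp' := mem_PX.1 hp
      exact hn (hp'.2 ▸ hp'.1.1.2.1)
    have e2 : (BX G c H n).card ≤ 1 := by
      rw [Finset.card_le_one]
      intro t1 ht1 t2 ht2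
      obtain ⟨f, x, v, y, t', q, q', k', K, hl, hk⟩ := mem_BX.1 ht1
      obtain ⟨f2, x2, v2, y2, t2', q2, q2', k2', K2, hl2, hk2⟩ := mem_BX.1 ht2
      by_contra hne
      have eq : q2 = q := rm_uniq (h.F.mu1 n) K2.q1.symm K.q1.symm
      subst eq
      have a1 : G.Adj q2 t1 := ((K.h1.n3.nb q2).2 (by simp)).symm
      have a2 : G.Adj q2 t2 := ((K2.h1.n3.nb q2).2 (by simp)).symm
      have s1 := (mem_T1.1 (khb_t h.F K).1).1
      have s2 := (mem_T1.1 (khb_t h.F K2).1).1
      have hr := h.F.f1 q2 t1 t2 (khb_Q h.F K).1 s1 s2 a1 a2 hne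
      have e3 : t2 = t' := rm_uniq (h.F.mu1 t1) hr (sv_rm K.h1)
      subst e3
      have e4 : q2 = q' := by
        rcases (K.h2.n3.nb q2).1 a2.symm with e | e | e
        · exact absurd e.symm (ne_col K.h2.cm K.h1.cb)
        · exact absurd (khb_Q h.F K).1 (tA_not_tQ (e ▸ K.ta))
        · exact e
      exact (h.F.g3 f v x y t1 t2 q2 q' n k' K).1 e4
    rw [e1, Finset.card_empty]
    omega

end cards

/-! ### the operation `M` -/

/-- data of `M(u,a)` with available `t` -/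
structure MD (G : SimpleGraph V) [DecidableRel G.Adj] (c : V → Bool) (H : Finset V)
    (u v a b w t r : V) : Prop where
  hu : Sv G c u v a b
  ha : Av G c a u w t
  ta : tA G c a
  tb : tA G c b
  cu : Clr G H u
  cl : Clr G H a
  bw : Bare G c H u w
  ht : t ∈ T1 G c
  hr : Rm G c t r
  ru : r ≠ u
  rH : r ∉ H
  av : Clr G H t

section M

variable {u v a b w t r : V}

theorem MD.col (M : MD G c H u v a b w t r) : c w = false ∧ c t = false ∧ c r = false := by
  have h1 := M.ha.cz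
  exact ⟨M.ha.cy, h1, by rw [M.hr.2, h1]⟩

theorem MD.fu (M : MD G c H u v a b w t r) (F : FxG G c j L) : u ∈ Fr G c :=
  (sv_Fr F.mu1 M.hu).2 ⟨M.ta, M.tb⟩

theorem MD.noQ (M : MD G c H u v a b w t r) {z : V} (hz : z ∈ ({u, b, w, a, t, r} : Finset V)) :
    ¬ tQ G c z := by
  obtain ⟨h1, h2, h3⟩ := M.col
  simp only [Finset.mem_insert, Finset.mem_singleton] at hz
  have nf : ∀ {x : V}, c x = false → ¬ tQ G c x := by
    intro x hx h
    rw [h.1] at hx
    cases hx
  rcases hz with rfl | rfl | rfl | rfl | rfl | rfl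
  · exact nf M.hu.cs
  · exact tA_not_tQ M.tb
  · exact nf h1
  · exact tA_not_tQ M.ta
  · exact nf h2
  · exact nf h3

theorem MD.msg (M : MD G c H u v a b w t r) (F : FxG G c j L) : MSG G c H u a t r := by
  have au : G.Adj a u := (M.ha.n3.nb u).2 (by simp)
  refine ⟨⟨M.fu F, M.ta, au.symm, M.cu, M.cl⟩, (M.ha.n3.nb t).2 (by simp), M.ha.n3.xz.symm, M.ht,
    M.hr, M.ru, M.rH, ?_⟩
  intro z hz h1 h2
  rcases (M.ha.n3.nb z).1 hz with e | e | e
  · exact absurd e h1
  · subst e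
    exact M.bw
  · exact absurd e h2

/-- free vertices which are not clear after `M` -/
theorem MD.fr (M : MD G c H u v a b w t r) (F : FxG G c j L) {f : V} (hf : f ∈ Fr G c)
    (hc : Clr G H f) (hn : ¬ Clr G (H ∪ {u, b, w, a, t, r}) f) : f = u ∨ f = v ∨ f = r := by
  have hm := F.mu1
  obtain ⟨cw, ct, cr⟩ := M.col
  have cf := (mem_Fr.1 hf).1.1
  have ruv : Rm G c u v := sv_rm M.hu
  have nfa : ∀ {x : V}, c x = true → f ≠ x := fun h => ne_col cf h
  -- `f` is `w` or mate of ...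
  have kw : f = w → f = v := by
    intro e
    obtain ⟨m, hmm⟩ := exists_mate (mem_Fr.1 hf).1.2
    rcases M.bw m (e ▸ hmm) with e1 | e1
    · subst e1
      exact rm_uniq (hm _) hmm.symm ruv
    · exact absurd e1 (hc.2 m hmm.1)
  have ka : G.Adj f a → f = u ∨ f = v ∨ f = r := by
    intro h
    rcases (M.ha.n3.nb f).1 h.symm with e | e | e
    · exact Or.inl e
    · exact Or.inr (Or.inl (kw e))
    · exact (fr_T1 hf (e ▸ M.ht)).elim
  have kb : G.Adj f b → f = u ∨ f = v ∨ f = r := by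
    intro h
    by_cases e1 : f = u
    · exact Or.inl e1
    by_cases e2 : Rm G c u f
    · exact Or.inr (Or.inl (rm_uniq (hm u) e2 ruv))
    have aub : G.Adj b u := ((M.hu.n3.nb b).2 (by simp)).symm
    obtain ⟨a', v1, v2, za, zb, hq⟩ := F.g1 b u f M.tb (M.fu F) hf (Ne.symm e1) e2 aub h.symm
    have e3 : a' = a := by
      rcases (M.hu.n3.nb a').1 ((hq.h1.n3.nb a').2 (by simp)) with e | e | e
      · exact absurd e.symm (ne_col M.hu.cm hq.h1.cb)
      · exact e
      · exact absurd e hq.h1.n3.yz.symm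
    subst e3
    exact ka ((hq.h2.n3.nb a').2 (by simp))
  rcases nclr hc hn with h | ⟨z, hz, h⟩
  · simp only [Finset.mem_insert, Finset.mem_singleton] at h
    rcases h with e | e | e | e | e | e
    · exact Or.inl e
    · exact absurd e (nfa M.tb.1)
    · exact Or.inr (Or.inl (kw e))
    · exact absurd e (nfa M.ta.1)
    · exact (fr_T1 hf (e ▸ M.ht)).elim
    · exact Or.inr (Or.inr e)
  · simp only [Finset.mem_insert, Finset.mem_singleton] at hz
    rcases hz with e | e | e | e | e | e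
    · subst e
      exact Or.inr (Or.inl (rm_uniq (hm z) ⟨h.symm, by rw [cf, M.hu.cs]⟩ ruv))
    · subst e
      exact kb h
    · subst e
      have h1 : Rm G c z f := ⟨h.symm, by rw [cf, cw]⟩
      rcases M.bw f h1 with e1 | e1
      · exact Or.inl e1
      · exact absurd e1 hc.1
    · subst e
      exact ka h
    · subst e
      exact Or.inr (Or.inr (rm_uniq (hm z) ⟨h.symm, by rw [cf, ct]⟩ M.hr))
    · subst e
      have e1 : f = t := rm_uniq (hm z) ⟨h.symm, by rw [cf, cr]⟩ M.hr.symm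
      exact (fr_T1 hf (e1 ▸ M.ht)).elim

/-- hubs which are not clear after `M` -/
theorem MD.hub (M : MD G c H u v a b w t r) (F : FxG G c j L) {f x : V} (hx : tA G c x)
    (hf : f ∈ Fr G c) (hfx : G.Adj f x) (hc : Clr G H x)
    (hcf : Clr G (H ∪ {u, b, w, a, t, r}) f)
    (hn : ¬ Clr G (H ∪ {u, b, w, a, t, r}) x) : G.Adj w x ∨ G.Adj r x := by
  have hm := F.mu1
  obtain ⟨cw, ct, cr⟩ := M.col
  have ca := M.ta.1
  have cb := M.tb.1
  have xK : ∀ z, z ∈ ({u, b, w, a, t, r} : Finset V) → x ≠ z := by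
    rintro z hz rfl
    exact hcf.2 x hfx (Finset.mem_union_right _ hz)
  have nA : ∀ {z : V}, c z = true → ¬ G.Adj x z := by
    intro z cz h
    exact nomate hx.2 z ⟨h, by rw [cz, hx.1]⟩
  rcases nclr hc hn with h | ⟨z, hz, h⟩
  · exact absurd rfl (xK x h)
  · have hz' := hz
    simp only [Finset.mem_insert, Finset.mem_singleton] at hz
    rcases hz with e | e | e | e | e | e
    · subst e
      rcases (M.hu.n3.nb x).1 h.symm with e | e | e
      · exact absurd e.symm (ne_col M.hu.cm hx.1)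
      · exact absurd e (xK a (by simp))
      · exact absurd e (xK b (by simp))
    · exact absurd (e ▸ h) (nA cb)
    · subst e
      exact Or.inl h.symm
    · exact absurd (e ▸ h) (nA ca)
    · subst e
      have e1 : x = a := t1_A F M.ht M.ta ((M.ha.n3.nb z).2 (by simp)).symm hx h.symm
      exact absurd e1 (xK a (by simp))
    · subst e
      exact Or.inr h.symm

/-- good pairs lost by `M` -/
theorem MD.lostP (M : MD G c H u v a b w t r) (h : Hyp G c j L H) {f x : V}
    (hg : GSG G c L H f x) (hn : ¬ GSG G c L (H ∪ {u, b, w, a, t, r}) f x) :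
    f = u ∨ f = v ∨ (x ≠ a ∧ G.Adj w x) ∨ G.Adj r x := by
  by_contra hno
  push Not at hno
  obtain ⟨h1, h2, h3, h4⟩ := hno
  have F := h.F
  have hm := F.mu1
  obtain ⟨s, s', hM, hA⟩ := h.typ hg
  have hl := hg.1
  have cf : Clr G (H ∪ {u, b, w, a, t, r}) f := by
    by_contra hcf
    rcases M.fr F hl.1 hl.2.2.2.1 hcf with e | e | e
    · exact h1 e
    · exact h2 e
    · subst e
      exact h.n4 ⟨u, a, t, f, M.msg F, hl.1, hl.2.2.2.1⟩
  have hxa : x ≠ a := by
    rintro rfl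
    exact cf.2 x hl.2.2.1 (Finset.mem_union_right _ (by simp))
  have cx : Clr G (H ∪ {u, b, w, a, t, r}) x := by
    by_contra hcx
    rcases M.hub F hl.2.1 hl.1 hl.2.2.1 hl.2.2.2.2 cf hcx with e | e
    · exact h3 hxa e
    · exact h4 e
  obtain ⟨-, axs, hsf, hs, hss, hsf', hsH, hbare⟩ := hM
  have hsub : H ⊆ H ∪ {u, b, w, a, t, r} := Finset.subset_union_left
  by_cases hs' : s' ∈ H ∪ {u, b, w, a, t, r}
  · refine hn ⟨⟨hl.1, hl.2.1, hl.2.2.1, cf, cx⟩, Or.inl fun z hz hzf => ?_⟩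
    by_cases e : z = s
    · subst e
      intro y hy
      rw [rm_uniq (hm z) hy hss]
      exact Or.inr hs'
    · exact bare_mono hsub (hbare z hz hzf e)
  · refine hn ⟨⟨hl.1, hl.2.1, hl.2.2.1, cf, cx⟩, Or.inr (Or.inl ⟨s, axs, hsf, ⟨hs, ?_⟩, ?_⟩)⟩
    · obtain ⟨m, q, hS, hq⟩ := t1_dat F hs hl.2.1 axs.symm
      by_contra hcs
      rcases nclr hA.2 hcs with e | ⟨z, hz, e⟩
      · exact cx.2 s axs (Finset.mem_union_right _ e)
      · rcases (hS.n3.nb z).1 e with e1 | e1 | e1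
        · subst e1
          have : z = s' := rm_uniq (hm s) (sv_rm hS) hss
          exact hs' (this ▸ Finset.mem_union_right _ hz)
        · subst e1
          exact cx.1 (Finset.mem_union_right _ hz)
        · subst e1
          exact M.noQ hz hq
    · intro z hz hzf hzs
      exact bare_mono hsub (hbare z hz hzf hzs)

/-- branches lost by `M` -/
theorem MD.lostB (M : MD G c H u v a b w t r) (h : Hyp G c j L H) {s f x k : V}
    (hg : Br G c H s f x k) (hn : ¬ GB G c (H ∪ {u, b, w, a, t, r}) s) :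
    f = u ∨ f = v ∨ G.Adj w k ∨ G.Adj r k := by
  by_contra hno
  push Not at hno
  obtain ⟨h1, h2, h3, h4⟩ := hno
  have F := h.F
  have hm := F.mu1
  have hg' := hg
  obtain ⟨v', y, s', q, q', k', K, hl, hk⟩ := hg
  obtain ⟨ts, ts'⟩ := khb_t F K
  obtain ⟨hQq, hQk⟩ := khb_Q F K
  have axs : G.Adj x s := (K.ha.n3.nb s).2 (by simp)
  have axs' : G.Adj x s' := (K.ha.n3.nb s').2 (by simp)
  have cf : Clr G (H ∪ {u, b, w, a, t, r}) f := by
    by_contra hcf
    rcases M.fr F hl.1 hl.2.2.2.1 hcf with e | e | e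
    · exact h1 e
    · exact h2 e
    · subst e
      exact h.n4 ⟨u, a, t, f, M.msg F, hl.1, hl.2.2.2.1⟩
  have hfa : ¬ G.Adj f a := fun e => cf.2 a e (Finset.mem_union_right _ (by simp))
  have hxt : ¬ G.Adj x t := by
    intro e
    have : x = a := t1_A F M.ht M.ta ((M.ha.n3.nb t).2 (by simp)).symm K.ta e.symm
    exact hfa (this ▸ hl.2.2.1)
  have cx : Clr G (H ∪ {u, b, w, a, t, r}) x := by
    by_contra hcx
    rcases M.hub F K.ta hl.1 hl.2.2.1 hl.2.2.2.2 cf hcx with e | e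
    · have key : ∀ {p p' : V}, w = p → Rm G c p p' → G.Adj x p' → p' ∈ T1 G c → False := by
        intro p p' e1 e2 e3 e4
        rcases M.bw p' (e1 ▸ e2) with e5 | e5
        · exact fr_T1 (M.fu F) (e5 ▸ e4)
        · exact hl.2.2.2.2.2 p' e3 e5
      rcases (K.ha.n3.nb w).1 e.symm with e1 | e1 | e1
      · rcases M.bw v' (e1 ▸ sv_rm K.hu) with e2 | e2
        · exact h2 (rm_uniq (hm u) (e2 ▸ (sv_rm K.hu).symm) (sv_rm M.hu))
        · exact hl.2.2.2.1.2 v' (sv_rm K.hu).1 e2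
      · exact key e1 (sv_rm K.h1) axs' ts'
      · exact key e1 (sv_rm K.h2) axs ts
    · rcases (K.ha.n3.nb r).1 e.symm with e1 | e1 | e1
      · exact h.n4 ⟨u, a, t, r, M.msg F, e1 ▸ hl.1, e1 ▸ hl.2.2.2.1⟩
      · have : t = s' := rm_uniq (hm r) M.hr.symm (e1 ▸ sv_rm K.h1)
        exact hxt (this ▸ axs')
      · have : t = s := rm_uniq (hm r) M.hr.symm (e1 ▸ sv_rm K.h2)
        exact hxt (this ▸ axs)
  have ck : Clr G (H ∪ {u, b, w, a, t, r}) k := by
    by_contra hck
    rcases nclr hk hck with e | ⟨z, hz, e⟩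
    · exact M.noQ e hQk
    · have hz' := hz
      simp only [Finset.mem_insert, Finset.mem_singleton] at hz
      have nA : ∀ {z : V}, tA G c z → ¬ G.Adj k z := by
        intro z hz h
        exact nomate hz.2 k ⟨h.symm, by rw [hz.1, hQk.1]⟩
      rcases hz with e1 | e1 | e1 | e1 | e1 | e1
      · exact (mem_Fr'.1 (M.fu F)).2 k (e1 ▸ e.symm) hQk
      · exact nA M.tb (e1 ▸ e)
      · exact h3 (e1 ▸ e.symm)
      · exact nA M.ta (e1 ▸ e)
      · subst e1
        -- `k` adjacent to `t`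
        have atz : G.Adj z a := ((M.ha.n3.nb z).2 (by simp)).symm
        obtain ⟨m, q0, hS, hq0⟩ := t1_dat F M.ht M.ta atz
        have e2 : k = q0 := by
          rcases (hS.n3.nb k).1 e.symm with e3 | e3 | e3
          · exact absurd e3.symm (ne_col hS.cm hQk.1)
          · exact absurd hQk (tA_not_tQ (e3 ▸ M.ta))
          · exact e3
        subst e2
        rcases k1_use F K M.ht hS M.ta with e3 | e3 | e3
        · exact hfa (e3 ▸ (K.hu.n3.nb y).2 (by simp))
        · have e4 : r = f := rm_uniq (hm z) M.hr (e3 ▸ (sv_rm K.hu).symm)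
          exact h.n4 ⟨u, a, z, r, M.msg F, e4 ▸ hl.1, e4 ▸ hl.2.2.2.1⟩
        · exact hxt (e3 ▸ axs')
      · exact h4 (e1 ▸ e.symm)
  exact hn (gb_iff.2 ⟨f, x, k, v', y, s', q, q', k', K, ⟨hl.1, hl.2.1, hl.2.2.1, cf, cx⟩, ck⟩)

end M

/-! ### the operation `U4` -/

/-- data of `U4(t)` in the state `H1` -/
structure VD (G : SimpleGraph V) [DecidableRel G.Adj] (c : V → Bool) (H1 : Finset V)
    (f0 t r a q k : V) : Prop where
  st : Sv G c t r a q
  ta : tA G c a
  tq : tQ G c q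
  qk : Rm G c q k
  ct : Clr G H1 t
  kH : k ∉ H1
  so : ∀ f, f ∈ Fr G c → Clr G H1 f → G.Adj f a → f = f0
  sr : ¬ Live G c H1 r

section W

variable {f0 t r a q k : V}

theorem VD.t1 (M : VD G c H1 f0 t r a q k) (F : FxG G c j L) : t ∈ T1 G c :=
  (sv_T1 F.mu1 M.st).2 (Or.inl ⟨M.ta, M.tq⟩)

theorem VD.kQ (M : VD G c H1 f0 t r a q k) (F : FxG G c j L) : tQ G c k :=
  ⟨by rw [M.qk.2, M.tq.1], mu_of_rm F.mu1 M.qk.symm⟩

/-- free vertices which are not clear after `U4` -/
theorem VD.fr (M : VD G c H1 f0 t r a q k) (F : FxG G c j L) {f : V} (hf : f ∈ Fr G c)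
    (hc : Clr G H1 f) (hn : ¬ Clr G (H1 ∪ {t, a, q, k}) f) : f = f0 := by
  have cf := (mem_Fr.1 hf).1.1
  have hk := M.kQ F
  rcases nclr hc hn with h | ⟨z, hz, h⟩
  · simp only [Finset.mem_insert, Finset.mem_singleton] at h
    rcases h with e | e | e | e
    · exact (fr_T1 hf (e ▸ M.t1 F)).elim
    · exact absurd e (ne_col cf M.ta.1)
    · exact absurd e (ne_col cf M.tq.1)
    · exact absurd e (ne_col cf hk.1)
  · simp only [Finset.mem_insert, Finset.mem_singleton] at hz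
    rcases hz with e | e | e | e
    · subst e
      have e1 : f = r := rm_uniq (F.mu1 z) ⟨h.symm, by rw [cf, M.st.cs]⟩ (sv_rm M.st)
      subst e1
      exact absurd ⟨hf, hc⟩ M.sr
    · subst e
      exact M.so f hf hc h
    · subst e
      exact absurd M.tq ((mem_Fr'.1 hf).2 z h)
    · subst e
      exact absurd hk ((mem_Fr'.1 hf).2 z h)

theorem VD.hub (M : VD G c H1 f0 t r a q k) (F : FxG G c j L) {f x : V} (hx : tA G c x)
    (hf : f ∈ Fr G c) (hfx : G.Adj f x) (hc : Clr G H1 x)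
    (hcf : Clr G (H1 ∪ {t, a, q, k}) f) : Clr G (H1 ∪ {t, a, q, k}) x := by
  by_contra hn
  have hk := M.kQ F
  have hxa : x ≠ a := by
    rintro rfl
    exact hcf.2 x hfx (Finset.mem_union_right _ (by simp))
  have nA : ∀ {z : V}, c z = true → ¬ G.Adj x z := by
    intro z cz h
    exact nomate hx.2 z ⟨h, by rw [cz, hx.1]⟩
  rcases nclr hc hn with h | ⟨z, hz, h⟩
  · simp only [Finset.mem_insert, Finset.mem_singleton] at h
    rcases h with e | e | e | e
    · exact ne_col M.st.cs hx.1 e.symm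
    · exact hxa e
    · exact tA_not_tQ hx (e ▸ M.tq)
    · exact tA_not_tQ hx (e ▸ hk)
  · simp only [Finset.mem_insert, Finset.mem_singleton] at hz
    rcases hz with e | e | e | e
    · subst e
      exact hxa (t1_A F (M.t1 F) M.ta ((M.st.n3.nb a).2 (by simp)) hx h.symm)
    · subst e
      exact nA M.ta.1 h
    · subst e
      exact nA M.tq.1 h
    · subst e
      exact nA hk.1 h

/-- good pairs lost by `U4` -/
theorem VD.lostP (M : VD G c H1 f0 t r a q k) (h : Hyp G c j L H) (hs1 : H ⊆ H1) {f x : V}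
    (hg : GSG G c L H f x) (hg1 : GSG G c L H1 f x)
    (hn : ¬ GSG G c L (H1 ∪ {t, a, q, k}) f x) :
    f = f0 ∨ ∃ s, s ∈ T1 G c ∧ G.Adj x s ∧ G.Adj k s := by
  by_contra hno
  push Not at hno
  obtain ⟨h1, h2⟩ := hno
  have F := h.F
  have hm := F.mu1
  obtain ⟨s, s', hM, hA⟩ := h.typ hg
  have hl := hg1.1
  have hsub : H1 ⊆ H1 ∪ {t, a, q, k} := Finset.subset_union_left
  have cf : Clr G (H1 ∪ {t, a, q, k}) f := by
    by_contra hcf
    exact h1 (M.fr F hl.1 hl.2.2.2.1 hcf)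
  have cx := M.hub F hl.2.1 hl.1 hl.2.2.1 hl.2.2.2.2 cf
  have hl' : LS G c (H1 ∪ {t, a, q, k}) f x := ⟨hl.1, hl.2.1, hl.2.2.1, cf, cx⟩
  obtain ⟨-, axs, hsf, hs, hss, hsf', hsH, hbare⟩ := hM
  have hs' : s' ∉ H1 ∪ {t, a, q, k} := by
    intro hs'
    refine hn ⟨hl', Or.inl fun z hz hzf => ?_⟩
    by_cases e : z = s
    · subst e
      intro y hy
      rw [rm_uniq (hm z) hy hss]
      exact Or.inr hs'
    · exact bare_mono (hs1.trans hsub) (hbare z hz hzf e)
  have hs1' : s' ∉ H1 := fun e => hs' (hsub e)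
  -- the other neighbours of `x` are not available in `H1`
  have nav : ∀ {g : V}, G.Adj x g → g ≠ f → g ≠ s → Clr G H1 g → (∃ y, Rm G c g y) →
      Rm G c g f := by
    rintro g a1 a2 a3 a4 ⟨y, hy⟩
    rcases hbare g a1 a2 a3 y hy with e | e
    · exact e ▸ hy
    · exact absurd (hs1 e) (a4.2 y hy.1)
  have hAs : Avl G c H1 s := by
    obtain ⟨-, k1 | ⟨t2, k1, k2, k3, k4⟩ | ⟨g, k1, k2, k3, k4, k5⟩⟩ := hg1
    · rcases k1 s axs hsf s' hss with e | e
      · exact absurd e hsf'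
      · exact absurd e hs1'
    · by_cases e : t2 = s
      · exact e ▸ k3
      · exfalso
        rcases k4 s axs hsf (Ne.symm e) s' hss with e | e
        · exact hsf' e
        · exact hs1' e
    · exfalso
      have : g ≠ s := by
        rintro rfl
        exact fr_T1 k4.1 hs
      exact k3 (nav k1 k2 this k4.2 (exists_mate (mem_Fr.1 k4.1).1.2)).symm
  refine hn ⟨hl', Or.inr (Or.inl ⟨s, axs, hsf, ⟨hs, ?_⟩, ?_⟩)⟩
  · obtain ⟨m, q0, hS, hq0⟩ := t1_dat F hs hl.2.1 axs.symm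
    have em : m = s' := rm_uniq (hm s) (sv_rm hS) hss
    by_contra hcs
    have nxa : x ≠ a := by
      rintro rfl
      exact cx.1 (Finset.mem_union_right _ (by simp))
    rcases nclr hAs.2 hcs with e | ⟨z, hz, e⟩
    · exact cx.2 s axs (Finset.mem_union_right _ e)
    · simp only [Finset.mem_insert, Finset.mem_singleton] at hz
      have st0 : s ≠ t := by
        rintro rfl
        exact nxa (t1_A F hs M.ta ((M.st.n3.nb a).2 (by simp)) hl.2.1 axs.symm)
      have kt : ¬ Rm G c s t := by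
        intro h3
        have : s' = t := rm_uniq (hm s) hss h3
        exact hs' (this ▸ Finset.mem_union_right _ (by simp))
      rcases hz with e1 | e1 | e1 | e1
      · subst e1
        exact kt ⟨e, by rw [M.st.cs, hS.cs]⟩
      · subst e1
        exact nxa (t1_A F hs M.ta e hl.2.1 axs.symm)
      · subst e1
        have aq : G.Adj z t := ((M.st.n3.nb z).2 (by simp)).symm
        exact kt (F.f1 z s t M.tq (mem_T1.1 hs).1 (mem_T1.1 (M.t1 F)).1 e.symm aq st0)
      · subst e1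
        exact h2 s hs axs e.symm
  · intro z hz hzf hzs
    exact bare_mono (hs1.trans hsub) (hbare z hz hzf hzs)

/-- branches lost by `U4` -/
theorem VD.lostB (M : VD G c H1 f0 t r a q k) (F : FxG G c j L) {s f x p : V}
    (hg : Br G c H1 s f x p) (hn : ¬ GB G c (H1 ∪ {t, a, q, k}) s) : f = f0 := by
  by_contra h1
  have hm := F.mu1
  have hkQ := M.kQ F
  obtain ⟨v', y, s', q1, q1', p', K, hl, hp⟩ := hg
  obtain ⟨ts, ts'⟩ := khb_t F K
  obtain ⟨hQq, hQp⟩ := khb_Q F K
  have axs : G.Adj x s := (K.ha.n3.nb s).2 (by simp)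
  have axs' : G.Adj x s' := (K.ha.n3.nb s').2 (by simp)
  have cf : Clr G (H1 ∪ {t, a, q, k}) f := by
    by_contra hcf
    exact h1 (M.fr F hl.1 hl.2.2.2.1 hcf)
  have cx := M.hub F hl.2.1 hl.1 hl.2.2.1 hl.2.2.2.2 cf
  have hfa : ¬ G.Adj f a := fun e => cf.2 a e (Finset.mem_union_right _ (by simp))
  have ata : G.Adj t a := (M.st.n3.nb a).2 (by simp)
  have atq : G.Adj t q := (M.st.n3.nb q).2 (by simp)
  have hxt : ¬ G.Adj x t := by
    intro e
    have : x = a := t1_A F (M.t1 F) M.ta ata K.ta e.symm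
    exact hfa (this ▸ hl.2.2.1)
  have np : ∀ {z : V}, tA G c z → ¬ G.Adj p z := by
    intro z hz h
    exact nomate hz.2 p ⟨h.symm, by rw [hz.1, hQp.1]⟩
  -- `p = q` and `p = k`
  have e1 : p ≠ q := by
    rintro rfl
    rcases k1_use F K (M.t1 F) M.st M.ta with e3 | e3 | e3
    · exact hfa (e3 ▸ (K.hu.n3.nb y).2 (by simp))
    · have e4 : r = f := rm_uniq (hm t) (sv_rm M.st) (e3 ▸ (sv_rm K.hu).symm)
      exact M.sr (e4 ▸ ⟨hl.1, hl.2.2.2.1⟩)
    · exact hxt (e3 ▸ axs')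
  have e2 : p ≠ k := by
    rintro rfl
    have e3 : q1 = q := rm_uniq (hm p) K.q1.symm M.qk.symm
    subst e3
    have aqs : G.Adj q1 s := ((K.h1.n3.nb q1).2 (by simp)).symm
    by_cases e4 : s = t
    · exact hxt (e4 ▸ axs)
    · have hr := F.f1 q1 s t hQq (mem_T1.1 ts).1 (mem_T1.1 (M.t1 F)).1 aqs atq.symm e4
      have : s' = t := rm_uniq (hm s) (sv_rm K.h1) hr
      exact hxt (this ▸ axs')
  have cp : Clr G (H1 ∪ {t, a, q, k}) p := by
    by_contra hcp
    rcases nclr hp hcp with e | ⟨z, hz, e⟩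
    · simp only [Finset.mem_insert, Finset.mem_singleton] at e
      rcases e with e | e | e | e
      · exact ne_col M.st.cs hQp.1 e.symm
      · exact tA_not_tQ M.ta (e ▸ hQp)
      · exact e1 e
      · exact e2 e
    · simp only [Finset.mem_insert, Finset.mem_singleton] at hz
      rcases hz with e3 | e3 | e3 | e3
      · subst e3
        rcases (M.st.n3.nb p).1 e.symm with e4 | e4 | e4
        · exact ne_col M.st.cm hQp.1 e4.symm
        · exact tA_not_tQ M.ta (e4 ▸ hQp)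
        · exact e1 e4
      · exact np (e3 ▸ M.ta) e
      · subst e3
        exact e2 (rm_uniq (hm z) ⟨e.symm, by rw [hQp.1, M.tq.1]⟩ M.qk)
      · subst e3
        exact e1 (rm_uniq (hm z) ⟨e.symm, by rw [hQp.1, hkQ.1]⟩ M.qk.symm)
  exact hn (gb_iff.2 ⟨f, x, p, v', y, s', q1, q1', p', K, ⟨hl.1, hl.2.1, hl.2.2.1, cf, cx⟩, cp⟩)

end W

/-! ### the row -/

/-- row G_C5b -/
theorem st_GC5b : ST_GC5b := by
  classical
  intro V _ _ G _ c j L H F I n1 n2 n3 n4 hLam ns na hQ
  have h : Hyp G c j L H := ⟨F, I, n1, n4, ns, na⟩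
  have hm := F.mu1
  obtain ⟨u, a, t, r, hM, hAt⟩ := hQ
  obtain ⟨hlu, aat, htu, ht, hr, hru, hrH, hbare⟩ := hM
  obtain ⟨m1, q1, hS, hq1⟩ := t1_dat F ht hlu.2.1 aat.symm
  -- data
  obtain ⟨v, b, hu⟩ := sv_ex F.reg (mem_Fr.1 hlu.1).1 hlu.2.2.1 hlu.2.1.1
  have tb : tA G c b := ((sv_Fr hm hu).1 hlu.1).2
  obtain ⟨w, hN⟩ := Pool.Agent.Helper96.MC.n3_of2 F.reg hlu.2.2.1.symm aat htu.symm
  have hA : Av G c a u w t := by
    have k1 : ∀ {z : V}, G.Adj a z → c z = false := fun hz => tA_nb hlu.2.1 hz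
    exact ⟨hlu.2.1.1, hu.cs, k1 ((hN.nb w).2 (by simp)), k1 aat,
      Pool.Agent.Helper96.MC.n3_23 hN⟩
  have MDD : MD G c H u v a b w t r :=
    ⟨hu, hA, hlu.2.1, tb, hlu.2.2.2.1, hlu.2.2.2.2,
      hbare w ((hN.nb w).2 (by simp)) hN.xz.symm hN.yz.symm, ht, hr, hru, hrH, hAt.2⟩
  set H1 := H ∪ {u, b, w, a, t, r} with hH1
  have hs1 : H ⊆ H1 := Finset.subset_union_left
  have uH1 : u ∈ H1 := Finset.mem_union_right _ (by simp)
  have tH1 : t ∈ H1 := Finset.mem_union_right _ (by simp)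
  have rH1 : r ∈ H1 := Finset.mem_union_right _ (by simp)
  have opM : OpM G c H H1 :=
    ⟨u, v, a, b, w, t, r, hu, hA, hlu.2.1, tb, hlu.2.2.2.1, hlu.2.2.2.2, MDD.bw, hr, hru, hrH, rfl⟩
  -- neighbours of `w` and `r`
  obtain ⟨w1, w2, hNw⟩ := Pool.Agent.Helper96.MC.n3_of F.reg ((hN.nb w).2 (by simp)).symm
  obtain ⟨r1, r2, hNr⟩ := Pool.Agent.Helper96.MC.n3_of F.reg hr.1.symm
  have lostP : ∀ f x, GSG G c L H f x → ¬ GSG G c L H1 f x →
      f = u ∨ f = v ∨ x = w1 ∨ x = w2 ∨ x = r1 ∨ x = r2 := by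
    intro f x hg hn
    rcases MDD.lostP h hg hn with e | e | ⟨e, e'⟩ | e
    · exact Or.inl e
    · exact Or.inr (Or.inl e)
    · rcases (hNw.nb x).1 e' with e1 | e1 | e1
      · exact absurd e1 e
      · exact Or.inr (Or.inr (Or.inl e1))
      · exact Or.inr (Or.inr (Or.inr (Or.inl e1)))
    · rcases (hNr.nb x).1 e with e1 | e1 | e1
      · exact absurd e1.symm (ne_col MDD.col.2.1 hg.1.2.1.1)
      · exact Or.inr (Or.inr (Or.inr (Or.inr (Or.inl e1))))
      · exact Or.inr (Or.inr (Or.inr (Or.inr (Or.inr e1))))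
  have lostB : ∀ s f x k, Br G c H s f x k → ¬ GB G c H1 s →
      f = u ∨ f = v ∨ k = w1 ∨ k = w2 ∨ k = r1 ∨ k = r2 := by
    intro s f x k hg hn
    have hQk : tQ G c k := by
      obtain ⟨v', y, s', q, q', k', K, hl, hk⟩ := hg
      exact (khb_Q F K).2
    rcases MDD.lostB h hg hn with e | e | e | e
    · exact Or.inl e
    · exact Or.inr (Or.inl e)
    · rcases (hNw.nb k).1 e with e1 | e1 | e1
      · exact absurd hQk (tA_not_tQ (e1 ▸ hlu.2.1))
      · exact Or.inr (Or.inr (Or.inl e1))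
      · exact Or.inr (Or.inr (Or.inr (Or.inl e1)))
    · rcases (hNr.nb k).1 e with e1 | e1 | e1
      · exact absurd e1.symm (ne_col MDD.col.2.1 hQk.1)
      · exact Or.inr (Or.inr (Or.inr (Or.inr (Or.inl e1))))
      · exact Or.inr (Or.inr (Or.inr (Or.inr (Or.inr e1))))
  -- cardinalities
  set PM := PF G c L H u ∪ (PF G c L H v ∪ (PX G c L H w1 ∪ (PX G c L H w2 ∪
    (PX G c L H r1 ∪ PX G c L H r2)))) with hPM
  set BM := BF G c H u ∪ (BF G c H v ∪ (BX G c H w1 ∪ (BX G c H w2 ∪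
    (BX G c H r1 ∪ BX G c H r2)))) with hBM
  have cPM : 2 * PM.card + BM.card ≤ 16 := by
    have a1 := h.fst u
    have a2 := h.fst v
    have a3 := h.snd w1
    have a4 := h.snd w2
    have a5 := h.snd r1
    have a6 := h.snd r2
    have b1 := Finset.card_union_le (PF G c L H u) (PF G c L H v ∪ (PX G c L H w1 ∪
      (PX G c L H w2 ∪ (PX G c L H r1 ∪ PX G c L H r2))))
    have b2 := Finset.card_union_le (PF G c L H v) (PX G c L H w1 ∪
      (PX G c L H w2 ∪ (PX G c L H r1 ∪ PX G c L H r2)))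
    have b3 := Finset.card_union_le (PX G c L H w1)
      (PX G c L H w2 ∪ (PX G c L H r1 ∪ PX G c L H r2))
    have b4 := Finset.card_union_le (PX G c L H w2) (PX G c L H r1 ∪ PX G c L H r2)
    have b5 := Finset.card_union_le (PX G c L H r1) (PX G c L H r2)
    have d1 := Finset.card_union_le (BF G c H u) (BF G c H v ∪ (BX G c H w1 ∪
      (BX G c H w2 ∪ (BX G c H r1 ∪ BX G c H r2))))
    have d2 := Finset.card_union_le (BF G c H v) (BX G c H w1 ∪
      (BX G c H w2 ∪ (BX G c H r1 ∪ BX G c H r2)))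
    have d3 := Finset.card_union_le (BX G c H w1)
      (BX G c H w2 ∪ (BX G c H r1 ∪ BX G c H r2))
    have d4 := Finset.card_union_le (BX G c H w2) (BX G c H r1 ∪ BX G c H r2)
    have d5 := Finset.card_union_le (BX G c H r1) (BX G c H r2)
    rw [hPM, hBM]
    omega
  have inPM : ∀ p : V × V, GSG G c L H p.1 p.2 → ¬ GSG G c L H1 p.1 p.2 → p ∈ PM := by
    intro p hg hn
    simp only [hPM, Finset.mem_union, mem_PF, mem_PX]
    rcases lostP p.1 p.2 hg hn with e | e | e | e | e | e <;> tauto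
  have inBM : ∀ s : V, GB G c H s → ¬ GB G c H1 s → s ∈ BM := by
    intro s hg hn
    obtain ⟨f, x, k, hb⟩ := gb_iff.1 hg
    simp only [hBM, Finset.mem_union, mem_BF, mem_BX]
    rcases lostB s f x k hb hn with e | e | e | e | e | e
    · exact Or.inl ⟨x, k, e ▸ hb⟩
    · exact Or.inr (Or.inl ⟨x, k, e ▸ hb⟩)
    · exact Or.inr (Or.inr (Or.inl ⟨f, x, e ▸ hb⟩))
    · exact Or.inr (Or.inr (Or.inr (Or.inl ⟨f, x, e ▸ hb⟩)))
    · exact Or.inr (Or.inr (Or.inr (Or.inr (Or.inl ⟨f, x, e ▸ hb⟩))))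
    · exact Or.inr (Or.inr (Or.inr (Or.inr (Or.inr ⟨f, x, e ▸ hb⟩))))
  -- the `A`-neighbour of `v`
  obtain ⟨xv, hxv⟩ : ∃ xv, ∀ x, v ∈ T1 G c → tA G c x → G.Adj x v → x = xv := by
    by_cases e : ∃ x, v ∈ T1 G c ∧ tA G c x ∧ G.Adj x v
    · obtain ⟨x0, k1, k2, k3⟩ := e
      exact ⟨x0, fun x _ k4 k5 => t1_A F k1 k2 k3.symm k4 k5.symm⟩
    · push Not at e
      exact ⟨v, fun x k1 k2 k3 => absurd k3 (e x k1 k2)⟩
  -- a source
  have noQH1 : ∀ {z : V}, tQ G c z → z ∉ H → z ∉ H1 := by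
    intro z hz h1 h2
    rcases Finset.mem_union.1 h2 with h3 | h3
    · exact h1 h3
    · exact MDD.noQ h3 hz
  obtain ⟨f0, t0, r0, a0, q0, k0, VDD⟩ : ∃ f0 t0 r0 a0 q0 k0, VD G c H1 f0 t0 r0 a0 q0 k0 := by
    by_cases hB : ∃ s, GB G c H1 s
    · -- a branch
      obtain ⟨s, hs⟩ := hB
      obtain ⟨f, x, k, v', y, s', q, q', k', K, hl, hk⟩ := gb_iff.1 hs
      obtain ⟨ts, ts'⟩ := khb_t F K
      obtain ⟨hQq, hQk⟩ := khb_Q F K
      have axs : G.Adj x s := (K.ha.n3.nb s).2 (by simp)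
      have axs' : G.Adj x s' := (K.ha.n3.nb s').2 (by simp)
      refine ⟨f, s, s', x, q, k, K.h1, K.ta, hQq, K.q1, ⟨hl.2.2.2.2.2 s axs, ?_⟩, hk.1, ?_, ?_⟩
      · intro z hz
        rcases (K.h1.n3.nb z).1 hz with e | e | e
        · exact e ▸ hl.2.2.2.2.2 s' axs'
        · exact e ▸ hl.2.2.2.2.1
        · exact e ▸ hk.2 q K.q1.1.symm
      · intro f' k1 k2 k3
        rcases (K.ha.n3.nb f').1 k3.symm with e | e | e
        · exact e
        · exact (fr_T1 k1 (e ▸ ts)).elim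
        · exact (fr_T1 k1 (e ▸ ts')).elim
      · rintro ⟨k1, -⟩
        exact fr_T1 k1 ts'
    · -- a good pair
      obtain ⟨p, hp, hp1, hpv⟩ : ∃ p : V × V, GSG G c L H p.1 p.2 ∧ GSG G c L H1 p.1 p.2 ∧
          ¬ (v ∈ T1 G c ∧ G.Adj p.2 v) := by
        by_contra hno
        push Not at hno
        have c1 : goodG G c L H ⊆ PM ∪ PX G c L H xv := by
          intro p hp
          rw [mem_goodG] at hp
          by_cases e : GSG G c L H1 p.1 p.2
          · obtain ⟨k1, k2⟩ := hno p hp e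
            refine Finset.mem_union_right _ (mem_PX.2 ⟨hp, ?_⟩)
            exact hxv p.2 k1 hp.1.2.1 k2
          · exact Finset.mem_union_left _ (inPM p hp e)
        have c2 : goodB G c H ⊆ BM := by
          intro s hs
          rw [mem_goodB] at hs
          exact inBM s hs fun e => hB ⟨s, e⟩
        have d1 := (Finset.card_le_card c1).trans (Finset.card_union_le _ _)
        have d2 := Finset.card_le_card c2
        have d3 := h.snd xv
        unfold Lam2 at hLam
        omega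
      obtain ⟨f, x⟩ := p
      simp only at hp hp1 hpv
      obtain ⟨s, s', hMs, hAs⟩ := h.typ hp
      have hMs' := hMs
      obtain ⟨-, axs, hsf, hs, hss, hsf', hsH, hb⟩ := hMs
      have hl := hp1.1
      obtain ⟨m, q, hSs, hq⟩ := t1_dat F hs hl.2.1 axs.symm
      have em : m = s' := rm_uniq (hm s) (sv_rm hSs) hss
      subst em
      obtain ⟨k, hk⟩ := exists_mate hq.2
      have hQk : tQ G c k := ⟨by rw [hk.2, hq.1], mu_of_rm hm hk.symm⟩
      have asq : G.Adj s q := (hSs.n3.nb q).2 (by simp)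
      have qH : q ∉ H := hAs.2.2 q asq
      have kH : k ∉ H := fun e => qH (I k q hQk hk.symm e)
      have sH1 : s ∉ H1 := hl.2.2.2.2.2 s axs
      have mH1 : m ∉ H1 := by
        intro e
        rcases Finset.mem_union.1 e with e | e
        · exact hsH e
        · simp only [Finset.mem_insert, Finset.mem_singleton] at e
          rcases e with e | e | e | e | e | e
          · have e1 : s = v := rm_uniq (hm u) (e ▸ hss.symm) (sv_rm hu)
            exact hpv ⟨e1 ▸ hs, e1 ▸ axs⟩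
          · exact ne_col hSs.cm tb.1 e
          · rcases MDD.bw s (e ▸ hss.symm) with e1 | e1
            · exact fr_T1 hlu.1 (e1 ▸ hs)
            · exact hAs.2.1 e1
          · exact ne_col hSs.cm hlu.2.1.1 e
          · have e1 : s = r := rm_uniq (hm t) (e ▸ hss.symm) hr
            exact sH1 (e1 ▸ rH1)
          · have e1 : s = t := rm_uniq (hm r) (e ▸ hss.symm) hr.symm
            exact sH1 (e1 ▸ tH1)
      refine ⟨f, s, m, x, q, k, hSs, hl.2.1, hq, hk, ⟨sH1, ?_⟩, noQH1 hQk kH, ?_, ?_⟩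
      · intro z hz
        rcases (hSs.n3.nb z).1 hz with e | e | e
        · exact e ▸ mH1
        · exact e ▸ hl.2.2.2.2.1
        · exact e ▸ noQH1 hq qH
      · intro f' k1 k2 k3
        by_contra hne
        have e1 : f' ≠ s := by
          rintro rfl
          exact fr_T1 k1 hs
        have k2' : Clr G H f' := clr_mono hs1 k2
        obtain ⟨y, hy⟩ := exists_mate (mem_Fr.1 k1).1.2
        rcases hb f' k3.symm hne e1 y hy with e2 | e2
        · subst e2
          exact na ⟨y, f', x, s, m, hMs', hAs, hy.symm, k3.symm, k1, k2'⟩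
        · exact k2'.2 y hy.1 e2
      · rintro ⟨k1, k2⟩
        exact n4 ⟨f, x, s, m, hMs', k1, clr_mono hs1 k2⟩
  -- the second operation
  have hsub : H1 ⊆ H1 ∪ {t0, a0, q0, k0} := Finset.subset_union_left
  obtain ⟨s1, s2, hNk⟩ := Pool.Agent.Helper96.MC.n3_of F.reg VDD.qk.1.symm
  have hx : ∀ s, ∃ xs, ∀ x, s ∈ T1 G c → tA G c x → G.Adj x s → x = xs := by
    intro s
    by_cases e : ∃ x, s ∈ T1 G c ∧ tA G c x ∧ G.Adj x s
    · obtain ⟨x0, k1, k2, k3⟩ := e
      exact ⟨x0, fun x _ k4 k5 => t1_A F k1 k2 k3.symm k4 k5.symm⟩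
    · push Not at e
      exact ⟨s, fun x k1 k2 k3 => absurd k3 (e x k1 k2)⟩
  obtain ⟨x1, hx1⟩ := hx s1
  obtain ⟨x2, hx2⟩ := hx s2
  refine ⟨H1, H1 ∪ {t0, a0, q0, k0}, opM, ⟨t0, r0, a0, q0, k0, VDD.st, VDD.ta, VDD.tq, VDD.qk,
    VDD.ct, VDD.kH, rfl⟩, ?_, ?_⟩
  · have c1 : goodG G c L H \ goodG G c L (H1 ∪ {t0, a0, q0, k0}) ⊆
        PM ∪ (PF G c L H f0 ∪ (PX G c L H x1 ∪ PX G c L H x2)) := by
      intro p hp
      rw [Finset.mem_sdiff, mem_goodG, mem_goodG] at hp
      obtain ⟨k1, k2⟩ := hp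
      by_cases e : GSG G c L H1 p.1 p.2
      · refine Finset.mem_union_right _ ?_
        simp only [Finset.mem_union, mem_PF, mem_PX]
        rcases VDD.lostP h hs1 k1 e k2 with e1 | ⟨s, g1, g2, g3⟩
        · exact Or.inl ⟨k1, e1⟩
        · rcases (hNk.nb s).1 g3 with e2 | e2 | e2
          · exact absurd e2 (ne_col (mem_T1.1 g1).1.1 VDD.tq.1)
          · subst e2
            exact Or.inr (Or.inl ⟨k1, hx1 p.2 g1 k1.1.2.1 g2⟩)
          · subst e2
            exact Or.inr (Or.inr ⟨k1, hx2 p.2 g1 k1.1.2.1 g2⟩)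
      · exact Finset.mem_union_left _ (inPM p k1 e)
    have c2 : goodB G c H \ goodB G c (H1 ∪ {t0, a0, q0, k0}) ⊆ BM ∪ BF G c H f0 := by
      intro s hs
      rw [Finset.mem_sdiff, mem_goodB, mem_goodB] at hs
      obtain ⟨k1, k2⟩ := hs
      by_cases e : GB G c H1 s
      · obtain ⟨f, x, p, hb⟩ := gb_iff.1 e
        have e1 := VDD.lostB F hb k2
        refine Finset.mem_union_right _ (mem_BF.2 ⟨x, p, e1 ▸ br_mono hs1 hb⟩)
      · exact Finset.mem_union_left _ (inBM s k1 e)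
    have d1 := (Finset.card_le_card c1).trans (Finset.card_union_le _ _)
    have d2 := (Finset.card_le_card c2).trans (Finset.card_union_le _ _)
    have d3 := Finset.card_union_le (PF G c L H f0) (PX G c L H x1 ∪ PX G c L H x2)
    have d4 := Finset.card_union_le (PX G c L H x1) (PX G c L H x2)
    have d5 := h.fst f0
    have d6 := h.snd x1
    have d7 := h.snd x2
    omega
  · have c3 : live G c H \ live G c (H1 ∪ {t0, a0, q0, k0}) ⊆ {u, v, f0} := by
      intro f hf
      rw [Finset.mem_sdiff] at hf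
      have ml : ∀ {H : Finset V}, f ∈ live G c H ↔ Live G c H f := by
        intro H
        unfold live
        simp
      rw [ml, ml] at hf
      obtain ⟨⟨k1, k2⟩, k3⟩ := hf
      simp only [Finset.mem_insert, Finset.mem_singleton]
      by_cases e : Clr G H1 f
      · have : ¬ Clr G (H1 ∪ {t0, a0, q0, k0}) f := fun e1 => k3 ⟨k1, e1⟩
        exact Or.inr (Or.inr (VDD.fr F k1 e this))
      · rcases MDD.fr F k1 k2 e with e1 | e1 | e1
        · exact Or.inl e1
        · exact Or.inr (Or.inl e1)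
        · subst e1
          exact (n4 ⟨u, a, t, f, MDD.msg F, k1, k2⟩).elim
    have := (Finset.card_le_card c3).trans Finset.card_le_three
    omega

end Pool.Agent.Helper53.MC.B5
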