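import Mathlib
import Pool.Agent.Helper53.MC.CCF

/-!
MP_4042d8_co, section D, part II: a vertex of type `Q` whose mate has a neighbour in `T1` has at
most one neighbour in `T1`.
-/

set_option autoImplicit false
set_option linter.unusedSectionVars false
set_option linter.unusedSimpArgs false
set_option linter.unusedVariables false

namespace Pool.Agent.Helper53.MC

open Pool.Agent.Helper27.MC hiding Fr T1 ter
open Pool.Agent.Helper51.MC Pool.Agent.Helper88.MC Pool.Agent.Helper64.MC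
open Pool.Agent.Helper91.MC Pool.Agent.Helper42.MC Pool.Agent.Helper96.MC

section

variable {V : Type} [Fintype V] [DecidableEq V] {G : SimpleGraph V} [DecidableRel G.Adj]
  {c : V → Bool} {j : ℕ}

/-- a corner in `T1` has an outer neighbour of type `A` -/
theorem td_T1 (hm : ∀ v, mu G c v ≤ 1) {q p x x' n n' : V} (T : Td G c q p x x' n n') :
    x ∈ T1 G c ↔ tA G c n := by
  rw [sv_T1 hm (td_sv T)]
  have hQ := (td_tQ hm T).1
  constructor
  · rintro (⟨h1, h2⟩ | ⟨h1, h2⟩)
    · exact absurd hQ (tA_not_tQ h1)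
    · exact h2
  · intro h
    exact Or.inr ⟨hQ, h⟩

/-- two mated apexes: not both have corners in `T1` -/
theorem dbl_T1 (hG : G.IsRegularOfDegree 3) (hj : 1 ≤ j) (hE : Exm G c j)
    {q p x x' n n' y y' l l' : V} (T : Td G c q p x x' n n') (T' : Td G c p q y y' l l')
    (h : x ∈ T1 G c) : y ∈ Dd G c ∧ y' ∈ Dd G c := by
  have hm := hE.ck.1.mu1
  have ha : acc G c q := acc_A T ((td_T1 hm T).1 h)
  have hna : ¬ acc G c p := by
    rintro ⟨m', h'⟩
    obtain ⟨m, h⟩ := ha
    exact cC6 V G hG c j hj hE m m' q p (T.apx hm) (T'.apx hm) T.rqp h h'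
  exact ⟨td_Dd hm T' (nacc_Q hm T' hna), td_Dd hm T'.swap (nacc_Q hm T'.swap hna)⟩

theorem not_T1_Dd {x : V} (h : x ∈ T1 G c) (h' : x ∈ Dd G c) : False := by
  have h1 := (mem_T1.1 h).2
  have h2 := (mem_Dd.1 h').2
  omega

/-- `q` of type `Q` with a neighbour `t` in `T1`: its mate `p` has at most one neighbour in `T1` -/
theorem one_T1 (hG : G.IsRegularOfDegree 3) (hj : 1 ≤ j) (hE : Exm G c j) {q p t y y' : V}
    (r : Rm G c q p) (cq : c q = true) (at' : G.Adj q t) (ht : t ∈ T1 G c) (ay : G.Adj p y)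
    (ay' : G.Adj p y') (hy : y ∈ T1 G c) (hy' : y' ∈ T1 G c) : y = y' := by
  by_contra hne
  have hO := hE.ck.1
  have hm := hO.mu1
  have cp : c p = true := by rw [r.2, cq]
  have hQp : tQ G c p := ⟨cp, mu_of_rm hm r.symm⟩
  have hQq : tQ G c q := ⟨cq, mu_of_rm hm r⟩
  have sy := (mem_T1.1 hy).1
  have sy' := (mem_T1.1 hy').1
  have st := (mem_T1.1 ht).1
  have ryy := F1 hG hj hO hQp sy sy' ay ay' hne
  have tp : Tp G c p y y' := ⟨hQp, ay, ay', ryy, sy.1⟩
  obtain ⟨q1, l, l', T⟩ := td_of hG hm tp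
  have e : q1 = q := rm_uniq (hm p) T.rqp r.symm
  subst e
  have hl := (td_T1 hm T).1 hy
  have hl' := (td_T1 hm T.swap).1 hy'
  by_cases hap : Apx G c q1
  · obtain ⟨x, x', n, n', T2⟩ := td_ex hG hm hap r
    rcases (T2.nq.nb t).1 at' with e | e | e
    · exact ne_col st.1 cp e
    · subst e
      exact not_T1_Dd hy (dbl_T1 hG hj hE T2 T ht).1
    · subst e
      exact not_T1_Dd hy (dbl_T1 hG hj hE T2.swap T ht).1
  · obtain ⟨r', e, S⟩ := sv_ex hG st at'.symm cq
    have he : tA G c e := by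
      rcases (sv_T1 hm S).1 ht with h | h
      · exact absurd hQq (tA_not_tQ h.1)
      · exact h.2
    have ate : G.Adj t e := (S.n3.nb e).2 (by simp)
    have hne2 : e ≠ q1 := S.n3.yz.symm
    rcases cC2 V G hG c j hj hE.ck p q1 t e ⟨y, y', tp⟩ r.symm hap at' st ate hne2 he.1 with
      h | h
    · exact tA_not_tQ he h
    · exact (cC7 V G hG c j hj hE p q1 y y' l l' t e T hap at' st ate hne2 he h.2).2 ⟨hl, hl'⟩

end

end Pool.Agent.Helper53.MC
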