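import Mathlib
import Pool.Agent.Helper96.MC.LSt
import Pool.Agent.Helper53.MC.CCF
import Pool.Agent.Helper79.MC.G1
import Pool.Agent.Helper72.MC.F12

/-!
MP_4042d8_co, row ST_SIX: both outer neighbours of an apex have free neighbours.
-/

set_option autoImplicit false
set_option linter.unusedSectionVars false
set_option linter.unusedSimpArgs false
set_option linter.unusedVariables false

namespace Pool.Agent.Helper53.MC

open Pool.Agent.Helper27.MC hiding Fr T1 ter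
open Pool.Agent.Helper51.MC Pool.Agent.Helper88.MC Pool.Agent.Helper64.MC
open Pool.Agent.Helper91.MC Pool.Agent.Helper42.MC Pool.Agent.Helper96.MC
open Pool.Agent.Helper6.MC (M1_CK)
open Pool.Agent.Helper79.MC (NH same_b)

section

variable {V : Type} [Fintype V] [DecidableEq V] {G : SimpleGraph V} [DecidableRel G.Adj]
  {c : V → Bool} {j : ℕ}

/-- no 3-hub in an optimal colouring, `2 ≤ j` -/
theorem nh2 (hG : G.IsRegularOfDegree 3) (hj : 2 ≤ j) : NH G j := by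
  intro c hO a s1 s2 s3 v1 v2 v3 p1 p2 p3 H
  have hm := hO.mu1
  have hA : tA G c a := ⟨H.av.ca, av_mu H.av⟩
  rcases Pool.Agent.Helper72.MC.st_F2 V G hG c j hO hj a s1 s2 s3 hA
    ((H.av.n3.nb s1).2 (by simp)) ((H.av.n3.nb s2).2 (by simp)) ((H.av.n3.nb s3).2 (by simp))
    H.av.n3.xy H.av.n3.xz H.av.n3.yz (sv_tS hm H.h1) (sv_tS hm H.h2) (sv_tS hm H.h3) with
    h | h | h
  · exact H.n12 ⟨h, by rw [H.h1.cs, H.h2.cs]⟩
  · exact H.n13 ⟨h, by rw [H.h1.cs, H.h3.cs]⟩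
  · exact H.n23 ⟨h, by rw [H.h2.cs, H.h3.cs]⟩

/-- no vertex of type `S` is adjacent to both outer neighbours of an apex -/
theorem no_common (hG : G.IsRegularOfDegree 3) (hj : 1 ≤ j) (hK : CK G c j)
    {q p y1 y2 n1 n2 u : V} (T : Td G c q p y1 y2 n1 n2) (hn1 : tA G c n1) (hn2 : tA G c n2)
    (hu : tS G c u) (a1 : G.Adj n1 u) (a2 : G.Adj n2 u) : False := by
  have hm := hK.1.mu1
  have hnn : n1 ≠ n2 := by
    rcases cC1 V G hG c j hj hK q p y1 y2 n1 n2 T with h | h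
    · exact absurd ((td_tQ hm T).2) (tA_not_tQ (h.1 ▸ hn1))
    · exact h.2.2
  have cn1 := hn1.1
  have cn2 := hn2.1
  have hqn2 : ¬ G.Adj q n2 := by
    intro h
    exact nomate hn2.2 q ⟨h.symm, by rw [T.cq, cn2]⟩
  have uy1 : u ≠ y1 := by
    rintro rfl
    rcases (T.nx.nb n2).1 a2.symm with e | e | e
    · exact T.nx'.xz e.symm
    · exact ne_col T.cx' cn2 e.symm
    · exact hnn e.symm
  have uy2 : u ≠ y2 := by
    rintro rfl
    rcases (T.nx'.nb n1).1 a1.symm with e | e | e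
    · exact T.nx.xz e.symm
    · exact ne_col T.cx cn1 e.symm
    · exact hnn e
  have uq : u ≠ q := ne_col hu.1 T.cq
  have R := Pool.Agent.Helper96.MC.M1 V G hG c hm q p y1 y2 n1 n2 T hn1
  have hK1 := M1_CK R hK
  have hm1 := hK1.1.mu1
  have hu1 : tS G (flp c {q, y1}) u := (R.tS u).2 (Or.inl ⟨hu, uy1⟩)
  have ap1 : Apx G (flp c {q, y1}) y1 := (R.apx y1).2 (Or.inr (Or.inl rfl))
  have r1 : Rm G (flp c {q, y1}) y1 n1 := (R.rm y1 n1).2 (by simp)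
  have r2 : Rm G (flp c {q, y1}) y2 q := (R.rm y2 q).2 (by simp)
  have hA2 : tA G (flp c {q, y1}) n2 := (R.tA n2).2 (Or.inl ⟨hn2, hnn.symm⟩)
  have ay2 : G.Adj n2 y2 := ((T.nx'.nb n2).2 (by simp)).symm
  by_cases hap : Apx G (flp c {q, y1}) n1
  · obtain ⟨x, x', n, n', T2⟩ := td_ex hG hm1 hap r1.symm
    -- the rotation at the corner `u` of `n1`
    have key : ∀ {x' n n' : V}, Td G (flp c {q, y1}) n1 y1 u x' n n' → False := by
      intro x' n n' T2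
      have e : n2 = n := by
        rcases (T2.nx.nb n2).1 a2.symm with e | e | e
        · exact absurd e.symm hnn
        · exact absurd e.symm (ne_col T2.cx' hA2.1)
        · exact e
      subst e
      have R2 := Pool.Agent.Helper96.MC.M1 V G hG _ hm1 n1 y1 u x' n2 n' T2 hA2
      have hK2 := M1_CK R2 hK1
      have cy2 : y2 ≠ n1 := ne_col T.cx' cn1
      have cqn1 : q ≠ n1 := T.nx.xz
      refine cC3 V G hG _ j hj hK2 y1 y2 q n2 u ((R2.tA y1).2 (Or.inr rfl))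
        ((T.nx.nb y2).2 (by simp)) ((T.nx.nb q).2 (by simp))
        ((R2.rm y2 q).2 (Or.inl ⟨r2, cy2, uy2.symm, cqn1, uq.symm⟩)) ay2.symm
        (ne_col T.cx cn2).symm ?_ ((R2.apx u).2 (Or.inr (Or.inl rfl)))
        ((R2.rm u n2).2 (by simp))
      rw [R2.col n2 hnn.symm (ne_col hu.1 cn2).symm, hA2.1]
    rcases (T2.nq.nb u).1 a1 with e | e | e
    · exact uy1 e
    · subst e
      exact key T2
    · subst e
      exact key T2.swap
  · rcases cC2 V G hG _ j hj hK1 y1 n1 u n2 ap1 r1 hap a1 hu1 a2.symm hnn.symm hA2.1 with h | h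
    · exact tA_not_tQ hA2 h
    · obtain ⟨-, k, k', Nk, rk⟩ := h
      rcases (Nk.nb y2).1 ay2 with e | e | e
      · exact uy2 e.symm
      · subst e
        have e2 : k' = q := rm_uniq (hm1 _) rk r2
        exact hqn2 (e2 ▸ ((Nk.nb k').2 (by simp))).symm
      · subst e
        have e2 : k = q := rm_uniq (hm1 _) rk.symm r2
        exact hqn2 (e2 ▸ ((Nk.nb k).2 (by simp))).symm

end

/-- row SIX -/
theorem st_SIX : ST_SIX := by
  intro V _ _ G _ hG c j hj hK q p y1 y2 n1 n2 u1 u2 T hp hn1 hn2 a1 a2 f1 f2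
  have hj1 : 1 ≤ j := by omega
  have hO := hK.1
  have hm := hO.mu1
  have hN : NH G j := nh2 hG hj
  have hnn : n1 ≠ n2 := by
    rcases cC1 V G hG c j hj1 hK q p y1 y2 n1 n2 T with h | h
    · exact absurd ((td_tQ hm T).2) (tA_not_tQ (h.1 ▸ hn1))
    · exact h.2.2
  obtain ⟨s1, g1⟩ := mem_Fr'.1 f1
  obtain ⟨s2, g2⟩ := mem_Fr'.1 f2
  have cn1 := hn1.1
  have cn2 := hn2.1
  have hQq := (td_tQ hm T).1
  have nu12 : ¬ G.Adj n2 u1 := fun h => no_common hG hj1 hK T hn1 hn2 s1 a1 h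
  have nu21 : ¬ G.Adj n1 u2 := fun h => no_common hG hj1 hK T hn1 hn2 s2 h a2
  have hu : u1 ≠ u2 := by
    rintro rfl
    exact nu12 a2
  by_contra hr
  obtain ⟨v1, b1, S1⟩ := sv_ex hG s1 a1.symm cn1
  obtain ⟨v2, b2, S2⟩ := sv_ex hG s2 a2.symm cn2
  have tb1 : tA G c b1 := ((sv_Fr hm S1).1 f1).2
  have tb2 : tA G c b2 := ((sv_Fr hm S2).1 f2).2
  have b1n2 : b1 ≠ n2 := by
    rintro rfl
    exact nu12 ((S1.n3.nb _).2 (by simp)).symm
  have b2n1 : b2 ≠ n1 := by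
    rintro rfl
    exact nu21 ((S2.n3.nb _).2 (by simp)).symm
  have hbb : b1 ≠ b2 := by
    intro e
    rw [← e] at S2
    exact hnn (same_b hG hj1 hO hN tb1 (sv_swap S1) (sv_swap S2) hn1 hn2 hr hu)
  have cy1 := T.cx
  have cy2 := T.cx'
  have ayq1 : G.Adj y1 q := (T.nx.nb q).2 (by simp)
  have ayq2 : G.Adj y2 q := (T.nx'.nb q).2 (by simp)
  have u1y1 : u1 ≠ y1 := by
    rintro rfl
    exact g1 q ayq1 hQq
  have u1y2 : u1 ≠ y2 := by
    rintro rfl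
    exact g1 q ayq2 hQq
  have u2y1 : u2 ≠ y1 := by
    rintro rfl
    exact g2 q ayq1 hQq
  have u2y2 : u2 ≠ y2 := by
    rintro rfl
    exact g2 q ayq2 hQq
  have ay1 : G.Adj n1 y1 := ((T.nx.nb n1).2 (by simp)).symm
  obtain ⟨z, nn1⟩ := n3_of2 hG ay1 a1 u1y1.symm
  have anz : G.Adj n1 z := (nn1.nb z).2 (by simp)
  have cz : c z = false := tA_nb hn1 anz
  have zy2 : z ≠ y2 := by
    rintro rfl
    rcases (T.nx'.nb n1).1 anz.symm with e | e | e
    · exact T.nx.xz e.symm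
    · exact ne_col T.cx cn1 e.symm
    · exact hnn e
  have rum1 : Rm G c u1 v1 := sv_rm S1
  have rum2 : Rm G c u2 v2 := sv_rm S2
  have hz : z = v1 ∨ mu G c z = 0 := by
    rcases tB_or_tS hm cz with h | h
    · exact Or.inr h.2
    · refine Or.inl ?_
      have av : Av G c n1 y1 u1 z := ⟨cn1, cy1, s1.1, cz, nn1⟩
      rcases hN.use hG hO av hn1 ⟨cy1, mu_of_rm hm T.rxx⟩ s1 h with h1 | h1 | h1
      · exact absurd (rm_uniq (hm y1) h1 T.rxx) u1y2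
      · exact absurd (rm_uniq (hm y1) h1 T.rxx) zy2
      · exact rm_uniq (hm u1) h1 rum1
  -- the rotation
  have R := Pool.Agent.Helper96.MC.M1 V G hG c hm q p y1 y2 n1 n2 T hn1
  have hO1 := R.opt j hO
  have hm1 := hO1.mu1
  have n3 : ∀ {x : V}, c x = false → x ≠ q := fun h => ne_col h T.cq
  have v1y1 : v1 ≠ y1 := by
    rintro rfl
    exact u1y2 (rm_uniq (hm _) rum1.symm T.rxx)
  have v1y2 : v1 ≠ y2 := by
    rintro rfl
    exact u1y1 (rm_uniq (hm _) rum1.symm T.rxx.symm)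
  have v2y1 : v2 ≠ y1 := by
    rintro rfl
    exact u2y2 (rm_uniq (hm _) rum2.symm T.rxx)
  have v2u1 : v2 ≠ u1 := by
    rintro rfl
    exact hr rum2.symm
  have v1u2 : v1 ≠ u2 := by
    rintro rfl
    exact hr rum1
  have hqb1 : b1 ≠ q := by
    rintro rfl
    exact tA_not_tQ tb1 hQq
  have hqb2 : b2 ≠ q := by
    rintro rfl
    exact tA_not_tQ tb2 hQq
  have e1 : flp c {q, y1} b1 = true := by
    rw [R.col b1 hqb1 (ne_col cy1 tb1.1).symm, tb1.1]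
  have tb1' : tA G (flp c {q, y1}) b1 := (R.tA b1).2 (Or.inl ⟨tb1, S1.n3.yz.symm⟩)
  have sw : Sw G (flp c {q, y1}) n1 y1 z u1 v1 b1 := by
    refine ⟨?_, ?_, R.cx, ?_, ?_, e1, ?_, ?_, nn1.yz.symm, S1.n3.yz.symm, ?_, Or.inr tb1'.2⟩
    · rw [R.col n1 T.nx.xz.symm (ne_col cy1 cn1).symm, cn1]
    · rw [R.col u1 (n3 s1.1) u1y1, s1.1]
    · rw [R.col z (n3 cz) nn1.xz.symm, cz]
    · rw [R.col v1 (n3 S1.cm) v1y1, S1.cm]
    · intro w
      rw [nn1.nb w]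
      tauto
    · intro w
      rw [S1.n3.nb w]
      tauto
    · rcases hz with h | h
      · exact Or.inl h
      · refine Or.inr (mu_eq_zero fun w hw => ?_)
        rcases (R.rm z w).1 hw with ⟨h1, -⟩ | ⟨h1, -⟩ | ⟨h1, -⟩ | ⟨h1, -⟩ | ⟨h1, -⟩
        · exact nomate h w h1
        · exact n3 cz h1
        · exact zy2 h1
        · exact nn1.xz h1.symm
        · exact ne_col cz cn1 h1
  have hO2 := sw.opt hG hO1
  have hm2 := hO2.mu1
  have r2 : Rm G (flp c {q, y1}) y2 q := (R.rm y2 q).2 (by simp)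
  have y2n1 : y2 ≠ n1 := ne_col cy2 cn1
  have q1 : q ≠ u1 := (n3 s1.1).symm
  have r3 : Rm G (flp (flp c {q, y1}) {n1, u1}) y2 q :=
    (sw.rm y2 q).2 (Or.inl ⟨r2, y2n1, u1y2.symm, T.nx.xz, q1⟩)
  have hA2 : tA G (flp (flp c {q, y1}) {n1, u1}) n2 :=
    (sw.yA hm1 n2).2 (Or.inl ⟨(R.tA n2).2 (Or.inl ⟨hn2, hnn.symm⟩), b1n2.symm⟩)
  have hAy : tA G (flp (flp c {q, y1}) {n1, u1}) y1 :=
    (sw.yA hm1 y1).2 (Or.inr ⟨rfl, ne_col cy1 tb1.1⟩)
  have hAb : tA G (flp (flp c {q, y1}) {n1, u1}) b2 :=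
    (sw.yA hm1 b2).2 (Or.inl ⟨(R.tA b2).2 (Or.inl ⟨tb2, b2n1⟩), hbb.symm⟩)
  have cy2' : flp (flp c {q, y1}) {n1, u1} y2 = false := by
    rw [flp2 _ y2n1 u1y2.symm, R.col y2 (n3 cy2) T.nq.yz.symm, cy2]
  have cq' : flp (flp c {q, y1}) {n1, u1} q = false := by
    rw [r3.2, cy2']
  have u2n1 : u2 ≠ n1 := ne_col s2.1 cn1
  have v2n1 : v2 ≠ n1 := ne_col S2.cm cn1
  have cu2' : flp (flp c {q, y1}) {n1, u1} u2 = false := by
    rw [flp2 _ u2n1 hu.symm, R.col u2 (n3 s2.1) u2y1, s2.1]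
  have cv2' : flp (flp c {q, y1}) {n1, u1} v2 = false := by
    rw [flp2 _ v2n1 v2u1, R.col v2 (n3 S2.cm) v2y1, S2.cm]
  have T1 : Sv G (flp (flp c {q, y1}) {n1, u1}) y2 q n2 y1 :=
    ⟨cy2', cq', hA2.1, hAy.1, n3_23 T.nx'⟩
  have T2 : Sv G (flp (flp c {q, y1}) {n1, u1}) u2 v2 n2 b2 :=
    ⟨cu2', cv2', hA2.1, hAb.1, S2.n3⟩
  have hnr : ¬ Rm G (flp (flp c {q, y1}) {n1, u1}) y2 u2 := fun h =>
    n3 s2.1 (rm_uniq (hm2 y2) h r3)
  exact ne_col cy1 tb2.1 (same_b hG hj1 hO2 hN hA2 T1 T2 hAy hAb hnr u2y2.symm)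

end Pool.Agent.Helper53.MC
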